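import Pool.Agent.Lib.MP_f80667_ag.Av.Push
import Pool.Agent.Lib.MP_f80667_ag.Gx.XA
import Pool.Agent.Lib.MP_f80667_ag.Gx.Oa

/-!
Projective varieties with a group law and morphisms to them.

* `Gv F N k ι`: a projective variety with a group law; the vectors `m i` compute the differences of points, `o` are coordinates of the point `0`, `j₀` the
  number of a coordinate which is `1`. `Gv.mv`: the value of `m i`. `Gv.Ok`: the properties.
* `Mf f A k`: a morphism `φ` to the group variety, given by the vectors `Φ i`. `Mf.pv`: the value of `Φ i`. `Mf.Ok`: the properties.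
* `Gv.dm`: the derivative of `m i` at `(y, y)` in the first variable. `Mf.dv`: the derivative of `Φ i` at `x`.
* `Mf.Alb E`: every global `1`-form over `E` is the pullback of an invariant form. `Mf.om`: the pullbacks of the invariant forms.
* `Lga L A`, `Lmf L M`: integrality and good reduction.
* `Lv L A R b`: in normalized coordinates the point `R` is `o + p b` modulo numbers of norm `< nm p`.
* `Nc L A t R z`: normalized coordinates of a point whose distance to `0` is at most `t`.
* `Mf.S`: the sum of the image of a cycle.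
-/

open ZC BE PE CV IntermediateField

namespace GX

/-- A projective variety with a group law. -/
structure Gv (F : Type) [Field F] (N k : ℕ) (ι : Type) where
  /-- the equations -/
  a : ι → MvPolynomial (Fin N) F
  /-- the group law -/
  G : AV.Gr (Xf a)
  /-- the vectors which compute the differences of points -/
  m : Fin k → Fin N → MvPolynomial (Fin N ⊕ Fin N) F
  /-- coordinates of the point `0` -/
  o : Fin N → F
  /-- the number of a coordinate -/
  j₀ : Fin N

section gv

variable {F : Type} [Field F] {N' k' : ℕ} {ι' : Type} (A : Gv F N' k' ι')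

/-- The value of the vector `m i`. -/
noncomputable def Gv.mv {E : Type} [CommRing E] [Algebra F E] (i : Fin k') (x x' : Fin N' → E) :
    Fin N' → E := fun j => MvPolynomial.aeval (Sum.elim x x') (A.m i j)

/-- The derivative of `m i` at `(y, y)` in the first variable, in the direction `t`. -/
noncomputable def Gv.dm {E : Type} [CommRing E] [Algebra F E] (i : Fin k') (y t : Fin N' → E) :
    Fin N' → E :=
  fun j => ∑ s, MvPolynomial.aeval (Sum.elim y y) (MvPolynomial.pderiv (Sum.inl s) (A.m i j)) * t s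

/-- The vectors `m i` compute the differences of points. -/
structure Gv.Ok : Prop where
  hm : Hm A.a
  o1 : A.o A.j₀ = 1
  oc : Co (A.G.grp F).zero A.o
  ne : ∀ (E : Type) [Field E] [Algebra F E] (P Q : (Xf A.a).pt E) (x x' : Fin N' → E),
    Co P x → Co Q x' → ∃ i, A.mv i x x' ≠ 0
  sub : ∀ (E : Type) [Field E] [Algebra F E] (P Q R : (Xf A.a).pt E) (x x' : Fin N' → E)
    (i : Fin k'), Co P x → Co Q x' → (A.G.grp E).add R Q = P → A.mv i x x' ≠ 0 → Co R (A.mv i x x')

end gv

/-- A morphism to the group variety. -/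
structure Mf {F : Type} [Field F] {N N' k' : ℕ} {ι ι' : Type} (f : ι → MvPolynomial (Fin N) F)
    (A : Gv F N' k' ι') (k : ℕ) where
  /-- the vectors which define the morphism -/
  Φ : Fin k → Fin N' → MvPolynomial (Fin N) F
  /-- the map of points -/
  φ : ∀ (E : Type) [Field E] [Algebra F E], (Xf f).pt E → (Xf A.a).pt E

section mf

variable {F : Type} [Field F] {N N' k k' : ℕ} {ι ι' : Type} {f : ι → MvPolynomial (Fin N) F}
  {A : Gv F N' k' ι'} (M : Mf f A k)

/-- The value of the vector `Φ i`. -/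
noncomputable def Mf.pv {E : Type} [CommRing E] [Algebra F E] (i : Fin k) (x : Fin N → E) :
    Fin N' → E := fun j => MvPolynomial.aeval x (M.Φ i j)

/-- The derivative of `Φ i` at `x` in the direction `t`. -/
noncomputable def Mf.dv {E : Type} [CommRing E] [Algebra F E] (i : Fin k) (x t : Fin N → E) :
    Fin N' → E := fun j => ∑ s, MvPolynomial.aeval x (MvPolynomial.pderiv s (M.Φ i j)) * t s

/-- The vectors define the morphism. -/
structure Mf.Ok : Prop where
  ne : ∀ (E : Type) [Field E] [Algebra F E] (P : (Xf f).pt E) (x : Fin N → E), Co P x →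
    ∃ i, M.pv i x ≠ 0
  co : ∀ (E : Type) [Field E] [Algebra F E] (P : (Xf f).pt E) (x : Fin N → E) (i : Fin k),
    Co P x → M.pv i x ≠ 0 → Co (M.φ E P) (M.pv i x)

/-- Every global `1`-form over `E` is the pullback of an invariant form. -/
def Mf.Alb (E : Type) [Field E] [Algebra F E] : Prop :=
  ∀ ℓ : (Fin N → E) → (Fin N → E) → E,
    Frm (fun i => MvPolynomial.map (algebraMap F E) (f i)) ℓ →
      ∃ η : Fin N' → E, ∑ j, η j * algebraMap F E (A.o j) = 0 ∧
        ∀ x t, Tg (fun i => MvPolynomial.map (algebraMap F E) (f i)) x t →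
          ∀ (i : Fin k) (i' : Fin k'), M.pv i x ≠ 0 →
            A.mv i' (M.pv i x) (M.pv i x) A.j₀ * ℓ x t =
              ∑ j, η j * A.dm i' (M.pv i x) (M.dv i x t) j

/-- The numbers of the parts: `(i, n, i')`. -/
def dec3 {k n k' : ℕ} (j : Fin (k * n * k')) : Fin k × Fin n × Fin k' :=
  let t := finProdFinEquiv.symm j
  let t' := finProdFinEquiv.symm t.1
  (t'.1, t'.2, t.2)

/-- The pullbacks of the invariant forms: the form number `l` belongs to the linear form `x_l - o_l x_j₀`. -/
noncomputable def Mf.om : Om F N N' (k * N' * k') where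
  c j := M.Φ (dec3 j).1 (dec3 j).2.1 *
    MvPolynomial.aeval (Sum.elim (M.Φ (dec3 j).1) (M.Φ (dec3 j).1)) (A.m (dec3 j).2.2 A.j₀)
  q j l n := M.Φ (dec3 j).1 (dec3 j).2.1 *
    ∑ s, MvPolynomial.aeval (Sum.elim (M.Φ (dec3 j).1) (M.Φ (dec3 j).1))
      (MvPolynomial.pderiv (Sum.inl s) (A.m (dec3 j).2.2 l -
        MvPolynomial.C (A.o l) * A.m (dec3 j).2.2 A.j₀)) *
          MvPolynomial.pderiv n (M.Φ (dec3 j).1 s)

end mf

section loc

variable {F : Type} [Field F] {N N' k k' : ℕ} {ι ι' : Type} {f : ι → MvPolynomial (Fin N) F}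
  {K Ω : Type} [Field K] [Field Ω] [Algebra K Ω] [Algebra F Ω] (L : Ld K Ω)

/-- Primitive integral coordinates of a point. -/
structure Pco (f : ι → MvPolynomial (Fin N) F) (P : (Xf f).pt Ω) (x : Fin N → Ω) : Prop where
  co : Co P x
  le : ∀ i, L.nm (x i) ≤ 1
  one : ∃ i, L.nm (x i) = 1

/-- Integrality and good reduction of the group variety. -/
structure Lga (A : Gv F N' k' ι') : Prop where
  io : ∀ j, L.nm (algebraMap F Ω (A.o j)) ≤ 1
  im : ∀ i j e, L.nm (algebraMap F Ω ((A.m i j).coeff e)) ≤ 1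
  um : ∀ (P Q : (Xf A.a).pt Ω) (x x' : Fin N' → Ω), Pco L A.a P x → Pco L A.a Q x' →
    ∃ i j, L.nm (A.mv i x x' j) = 1

/-- Integrality and good reduction of the morphism. -/
structure Lmf {A : Gv F N' k' ι'} (M : Mf f A k) : Prop where
  iΦ : ∀ i j e, L.nm (algebraMap F Ω ((M.Φ i j).coeff e)) ≤ 1
  uΦ : ∀ (P : (Xf f).pt Ω) (x : Fin N → Ω), Pco L f P x → ∃ i j, L.nm (M.pv i x j) = 1

variable (A : Gv F N' k' ι')

/-- In normalized coordinates the point `R` is `o + p b` modulo numbers of norm `< nm p`. -/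
def Lv (R : (Xf A.a).pt Ω) (b : Fin N' → L.κ) : Prop :=
  ∃ z : Fin N' → Ω, Co R z ∧ z A.j₀ = 1 ∧
    ∀ j, L.rs.Hv ((z j - algebraMap F Ω (A.o j)) / (L.p : Ω)) (b j)

/-- Normalized coordinates of a point whose distance to `0` is at most `t`. -/
def Nc (t : ℝ) (R : (Xf A.a).pt Ω) (z : Fin N' → Ω) : Prop :=
  Co R z ∧ z A.j₀ = 1 ∧ ∀ j, L.nm (z j - algebraMap F Ω (A.o j)) ≤ t

end loc

section sum

variable {F : Type} [Field F] {N N' k k' : ℕ} {ι ι' : Type} {f : ι → MvPolynomial (Fin N) F}
  {A : Gv F N' k' ι'} (M : Mf f A k) (Ω : Type) [Field Ω] [Algebra F Ω]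

/-- The sum of the image of a cycle. -/
noncomputable def Mf.S : letI := A.G.grp Ω; ((Xf f).pt Ω →₀ ℤ) →+ (Xf A.a).pt Ω :=
  letI := A.G.grp Ω
  (A.G.sum Ω).comp (Finsupp.mapDomain.addMonoidHom (M.φ Ω))

end sum

end GX
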