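import Pool.Agent.Lib.MP_f80667_ag.Sb.K
import Pool.Agent.Lib.MP_f80667_ag.Rs.M3

/-! The properties of the sum map at almost all places. -/

open ZC BE PE CV IntermediateField MvPolynomial

namespace GX

/-- **The sum map has the properties `Sml` wherever finitely many numbers are integral and `p ≠ 2`.** -/
theorem exists_sml {F : Type} [Field F] {N N' k k' : ℕ} {ι ι' : Type}
    {f : ι → MvPolynomial (Fin N) F} {A : Gv F N' k' ι'} {M : Mf f A k} (hf : Hm f) (hA : A.Ok)
    (hM : M.Ok) : ∃ T : Finset F, ∀ (K Ω : Type) [Field K] [CharZero K] [Field Ω] [Algebra K Ω]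
      [Algebra F K] [Algebra F Ω] [IsScalarTower F K Ω] [IsAlgClosure K Ω] (L : Ld K Ω),
        2 < L.p → (∀ t ∈ T, L.nm (algebraMap F Ω t) ≤ 1) →
          letI := A.G.grp Ω; Sml f L M.om (M.S Ω) (Lv L A) := by
  classical
  obtain ⟨T, hT⟩ := exists_lga hA
  obtain ⟨T', hT'⟩ := exists_lmf hM
  refine ⟨T ∪ T', fun K Ω _ _ _ _ _ _ _ _ L h2 ht => ?_⟩
  exact sml_of hA hM (hT K Ω L fun t h => ht t (Finset.mem_union_left _ h))
    (hT' K Ω L fun t h => ht t (Finset.mem_union_right _ h)) h2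
    fun z hz => RS.rs (K := K) hf hA hM hz

end GX
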