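import Pool.Agent.Lib.MP_f80667_ag.Sb.D

/-! The morphism to first order. -/

open ZC BE PE CV IntermediateField MvPolynomial

namespace GX

theorem dec3_surj {k n k' : ℕ} (i : Fin k) (s : Fin n) (i' : Fin k') :
    ∃ j : Fin (k * n * k'), dec3 j = (i, s, i') := by
  refine ⟨finProdFinEquiv (finProdFinEquiv (i, s), i'), ?_⟩
  simp only [dec3, Equiv.symm_apply_apply]

section om

variable {F : Type} [Field F] {N N' k k' : ℕ} {ι ι' : Type} {f : ι → MvPolynomial (Fin N) F}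
  {A : Gv F N' k' ι'} {M : Mf f A k} {E : Type} [Field E] [Algebra F E]

private theorem sbe_comp {i : Fin k} {x : Fin N → E} (P : MvPolynomial (Fin N' ⊕ Fin N') F) :
    aeval x (aeval (Sum.elim (M.Φ i) (M.Φ i)) P) =
      aeval (Sum.elim (M.pv i x) (M.pv i x)) P := by
  have h := DFunLike.congr_fun (MvPolynomial.comp_aeval (R := F)
    (f := Sum.elim (M.Φ i) (M.Φ i)) (aeval x : MvPolynomial (Fin N) F →ₐ[F] E)) P
  rw [AlgHom.comp_apply] at h
  rw [h]
  congr 2
  funext s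
  rcases s with s | s <;> rfl

/-- The value of the denominator. -/
theorem om_c_eq (j : Fin (k * N' * k')) (x : Fin N → E) :
    aeval x (M.om.c j) = M.pv (dec3 j).1 x (dec3 j).2.1 *
      A.mv (dec3 j).2.2 (M.pv (dec3 j).1 x) (M.pv (dec3 j).1 x) A.j₀ := by
  rw [Mf.om, map_mul, sbe_comp]
  rfl

/-- The value of the form. -/
theorem om_q_eq (j : Fin (k * N' * k')) (l : Fin N') (x t : Fin N → E) :
    ∑ n, aeval x (M.om.q j l n) * t n = M.pv (dec3 j).1 x (dec3 j).2.1 *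
      (A.dm (dec3 j).2.2 (M.pv (dec3 j).1 x) (M.dv (dec3 j).1 x t) l - algebraMap F E (A.o l) *
        A.dm (dec3 j).2.2 (M.pv (dec3 j).1 x) (M.dv (dec3 j).1 x t) A.j₀) := by
  have h1 : ∀ n, aeval x (M.om.q j l n) = M.pv (dec3 j).1 x (dec3 j).2.1 *
      ∑ s, (aeval (Sum.elim (M.pv (dec3 j).1 x) (M.pv (dec3 j).1 x))
        (pderiv (Sum.inl s) (A.m (dec3 j).2.2 l)) - algebraMap F E (A.o l) *
          aeval (Sum.elim (M.pv (dec3 j).1 x) (M.pv (dec3 j).1 x))
            (pderiv (Sum.inl s) (A.m (dec3 j).2.2 A.j₀))) *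
              aeval x (pderiv n (M.Φ (dec3 j).1 s)) := by
    intro n
    rw [Mf.om, map_mul, map_sum]
    congr 1
    refine Finset.sum_congr rfl fun s _ => ?_
    rw [map_mul, sbe_comp, map_sub, pderiv_C_mul, map_sub, ← smul_eq_C_mul, map_smul,
      Algebra.smul_def]
  simp only [h1, mul_assoc, Finset.sum_mul]
  rw [← Finset.mul_sum]
  congr 1
  rw [Finset.sum_comm]
  simp only [Gv.dm, Mf.dv, Finset.mul_sum]
  rw [← Finset.sum_sub_distrib]
  refine Finset.sum_congr rfl fun s _ => ?_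
  rw [← Finset.sum_sub_distrib]
  refine Finset.sum_congr rfl fun n _ => ?_
  ring

end om

section lv

variable {F : Type} [Field F] {N' k' : ℕ} {ι' : Type} {A : Gv F N' k' ι'}
  {K Ω : Type} [Field K] [CharZero K] [Field Ω] [Algebra K Ω] [Algebra F Ω] {L : Ld K Ω}

theorem sbe_p (L : Ld K Ω) : (L.p : Ω) ≠ 0 := L.ne_zero L.p_pos

/-- The point is congruent to `0` modulo `p`. -/
theorem Lv.nc {R : (Xf A.a).pt Ω} {b : Fin N' → L.κ} (h : Lv L A R b) :
    ∃ z, Nc L A (L.nm (L.p : Ω)) R z ∧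
      ∀ j, L.rs.Hv ((z j - algebraMap F Ω (A.o j)) / (L.p : Ω)) (b j) := by
  obtain ⟨z, hz, hz1, hb⟩ := h
  refine ⟨z, ⟨hz, hz1, fun j => ?_⟩, hb⟩
  have h1 := L.hv_int (hb j)
  have e : z j - algebraMap F Ω (A.o j) =
      (L.p : Ω) * ((z j - algebraMap F Ω (A.o j)) / (L.p : Ω)) :=
    (mul_div_cancel₀ _ (sbe_p L)).symm
  rw [e, L.mul]
  exact mul_le_of_le_one_right (L.nonneg _) h1

theorem lv_zero (hA : A.Ok) : Lv L A (A.G.grp Ω).zero 0 := by
  obtain ⟨h1, h2, -⟩ := nc_zero (L := L) hA le_rfl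
  refine ⟨_, h1, h2, fun j => ?_⟩
  rw [sub_self, zero_div]
  exact Rs.Hv.zero

theorem lv_uniq {R : (Xf A.a).pt Ω} {b b' : Fin N' → L.κ} (h : Lv L A R b)
    (h' : Lv L A R b') : b = b' := by
  obtain ⟨z, hz, hb⟩ := h.nc
  obtain ⟨z', hz', hb'⟩ := h'.nc
  obtain rfl := hz.uniq hz'
  exact funext fun j => (hb j).uniq (hb' j)

/-- Numbers which are small compared with `p`. -/
theorem sbe_hv {e : Ω} (h : L.nm e ≤ L.nm (L.p : Ω) * L.nm (L.p : Ω)) :
    L.rs.Hv (e / (L.p : Ω)) 0 := by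
  rw [L.hv_zero, L.div, div_lt_one L.p_pos]
  exact h.trans_lt (mul_lt_of_lt_one_left L.p_pos L.lt)

theorem lv_sub (hA : A.Ok) (hL : Lga L A) {R R' : (Xf A.a).pt Ω} {b b' : Fin N' → L.κ}
    (h : Lv L A R b) (h' : Lv L A R' b') :
    letI := A.G.grp Ω; Lv L A (R - R') (b - b') := by
  let _ : AddCommGroup ((Xf A.a).pt Ω) := A.G.grp Ω
  change Lv L A (R - R') (b - b')
  obtain ⟨z, hz, hb⟩ := h.nc
  obtain ⟨z', hz', hb'⟩ := h'.nc
  obtain ⟨w, hw, hwj⟩ := nc_sub hA hL L.lt (L.nonneg _) hz hz' (sub_add_cancel R R')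
  refine ⟨w, hw.1, hw.2.1, fun j => ?_⟩
  have e : (w j - algebraMap F Ω (A.o j)) / (L.p : Ω) =
      ((z j - algebraMap F Ω (A.o j)) / (L.p : Ω) -
        (z' j - algebraMap F Ω (A.o j)) / (L.p : Ω)) +
        (w j - algebraMap F Ω (A.o j) - (z j - z' j)) / (L.p : Ω) := by
    have := sbe_p L
    field_simp
    ring
  rw [e]
  have h1 := ((hb j).sub (hb' j)).add (sbe_hv (hwj j))
  rwa [add_zero] at h1

end lv

section mf

variable {F : Type} [Field F] {N N' k k' : ℕ} {ι ι' : Type} {f : ι → MvPolynomial (Fin N) F}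
  {A : Gv F N' k' ι'} {M : Mf f A k}
  {K Ω : Type} [Field K] [Field Ω] [Algebra K Ω] [Algebra F Ω] {L : Ld K Ω}

/-- A part on which the forms are given at `x`. -/
theorem exists_part (hA : A.Ok) (hM : M.Ok) (hL : Lga L A) (hLm : Lmf L M)
    {P : (Xf f).pt Ω} {x : Fin N → Ω} (hx : Pco L f P x) :
    ∃ j, L.nm (aeval x (M.om.c j)) = 1 := by
  let _ : AddCommGroup ((Xf A.a).pt Ω) := A.G.grp Ω
  obtain ⟨i, n, hn⟩ := hLm.uΦ P x hx
  have hy : ∀ s, L.nm (M.pv i x s) ≤ 1 := fun s => sb_le (hLm.iΦ i s) hx.le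
  have hy0 : M.pv i x ≠ 0 := by
    intro h0
    rw [h0, Pi.zero_apply, L.zero] at hn
    exact zero_ne_one hn
  have hPy : Pco L A.a (M.φ Ω P) (M.pv i x) := ⟨hM.co Ω P x i hx.co hy0, hy, n, hn⟩
  obtain ⟨i', j₁, hj₁⟩ := hL.um _ _ _ _ hPy hPy
  have hm0 : A.mv i' (M.pv i x) (M.pv i x) ≠ 0 := by
    intro h0
    rw [h0, Pi.zero_apply, L.zero] at hj₁
    exact zero_ne_one hj₁
  obtain ⟨h1, h2, -⟩ := nc_zero (L := L) hA le_rfl
  have e1 := hA.mv_eq (R := (0 : (Xf A.a).pt Ω)) hPy.co hPy.co (zero_add _) hm0 h1 h2 j₁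
  have hc : L.nm (A.mv i' (M.pv i x) (M.pv i x) A.j₀) = 1 := by
    have h3 : L.nm (A.mv i' (M.pv i x) (M.pv i x) A.j₀) ≤ 1 := sb_le (hL.im i' A.j₀) fun s => by
      rcases s with s | s
      · exact hy s
      · exact hy s
    refine le_antisymm h3 ?_
    rw [e1, L.mul] at hj₁
    rw [← hj₁]
    exact mul_le_of_le_one_right (L.nonneg _) (hL.io j₁)
  obtain ⟨j, hj⟩ := dec3_surj i n i'
  refine ⟨j, ?_⟩
  rw [om_c_eq, hj, L.mul, hn, hc, one_mul]

/-- **The morphism to first order.** -/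
theorem mf_sub (hA : A.Ok) (hM : M.Ok) (hL : Lga L A) (hLm : Lmf L M) {t : ℝ} (ht1 : t < 1)
    (ht : 0 ≤ t) {P P' : (Xf f).pt Ω} {x x' : Fin N → Ω} (hx : Pco L f P x) (hx' : Co P' x')
    (h : ∀ i, L.nm (x' i - x i) ≤ t) {j : Fin (k * N' * k')}
    (hj : L.nm (aeval x (M.om.c j)) = 1) {R : (Xf A.a).pt Ω}
    (hR : (A.G.grp Ω).add R (M.φ Ω P) = M.φ Ω P') :
    ∃ z, Nc L A t R z ∧ ∀ l, L.nm (aeval x (M.om.c j) * (z l - algebraMap F Ω (A.o l)) -
      ∑ n, aeval x (M.om.q j l n) * (x' n - x n)) ≤ t * t := by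
  let _ : AddCommGroup ((Xf A.a).pt Ω) := A.G.grp Ω
  rw [om_c_eq] at hj
  set i := (dec3 j).1 with hi
  set n := (dec3 j).2.1 with hn
  set i' := (dec3 j).2.2 with hi'
  set y : Fin N' → Ω := M.pv i x with hy
  set y' : Fin N' → Ω := M.pv i x' with hy'
  set o : Fin N' → Ω := fun j => algebraMap F Ω (A.o j) with ho
  have hio : ∀ j, L.nm (o j) ≤ 1 := hL.io
  have hix' : ∀ s, L.nm (x' s) ≤ 1 := by
    intro s
    have e : x' s = (x' s - x s) + x s := by ring
    rw [e]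
    exact (L.add _ _).trans (max_le ((h s).trans ht1.le) (hx.le s))
  have hiy : ∀ s, L.nm (y s) ≤ 1 := fun s => sb_le (hLm.iΦ i s) hx.le
  have hiy' : ∀ s, L.nm (y' s) ≤ 1 := fun s => sb_le (hLm.iΦ i s) hix'
  have hyy : ∀ s, L.nm (y' s - y s) ≤ t := fun s => sb_close (hLm.iΦ i s) hix' hx.le ht h
  have him : L.nm (A.mv i' y y A.j₀) ≤ 1 := sb_le (hL.im i' A.j₀) fun s => by
    rcases s with s | s
    · exact hiy s
    · exact hiy s
  have hu : L.nm (y n) = 1 ∧ L.nm (A.mv i' y y A.j₀) = 1 := by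
    rw [L.mul] at hj
    constructor
    · refine le_antisymm (hiy n) ?_
      rw [← hj]
      exact mul_le_of_le_one_right (L.nonneg _) him
    · refine le_antisymm him ?_
      rw [← hj]
      exact mul_le_of_le_one_left (L.nonneg _) (hiy n)
  obtain ⟨hyn, hcc⟩ := hu
  have hyn' : L.nm (y' n) = 1 := nm_close hyn ((hyy n).trans_lt ht1)
  have hy0 : y ≠ 0 := by
    intro h0
    rw [h0, Pi.zero_apply, L.zero] at hyn
    exact zero_ne_one hyn
  have hy0' : y' ≠ 0 := by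
    intro h0
    rw [h0, Pi.zero_apply, L.zero] at hyn'
    exact zero_ne_one hyn'
  have hcy : Co (M.φ Ω P) y := hM.co Ω P x i hx.co hy0
  have hcy' : Co (M.φ Ω P') y' := hM.co Ω P' x' i hx' hy0'
  set w : Fin N' → Ω := A.mv i' y' y with hw
  have hwc : ∀ j, L.nm (w j - A.mv i' y y j) ≤ t := by
    intro j
    refine sb_close (hL.im i' j) (fun s => ?_) (fun s => ?_) ht fun s => ?_
    · rcases s with s | s
      · exact hiy' s
      · exact hiy s
    · rcases s with s | s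
      · exact hiy s
      · exact hiy s
    · rcases s with s | s
      · exact hyy s
      · change L.nm (y s - y s) ≤ t
        rw [sub_self, L.zero]
        exact ht
  have hw1 : L.nm (w A.j₀) = 1 := nm_close hcc ((hwc A.j₀).trans_lt ht1)
  have hw0 : w A.j₀ ≠ 0 := L.ne_zero (by rw [hw1]; exact zero_lt_one)
  have hwn : w ≠ 0 := fun h0 => hw0 (congrFun h0 A.j₀)
  have hcw : Co R w := hA.sub Ω (M.φ Ω P') (M.φ Ω P) R y' y i' hcy' hcy hR hwn
  have hmn : A.mv i' y y ≠ 0 := by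
    intro h0
    rw [h0, Pi.zero_apply, L.zero] at hcc
    exact zero_ne_one hcc
  obtain ⟨hz1, hz2, -⟩ := nc_zero (L := L) hA le_rfl
  have e1 := fun j => hA.mv_eq (R := (0 : (Xf A.a).pt Ω)) hcy hcy (zero_add _) hmn hz1 hz2 j
  -- the derivatives
  set D : Fin N' → Ω := A.dm i' y (M.dv i x fun n => x' n - x n) with hD
  have hder : ∀ j s, L.nm (aeval (Sum.elim y y) (pderiv (Sum.inl s) (A.m i' j))) ≤ 1 := by
    intro j s
    refine sb_le (fun e => ?_) fun s => ?_
    · rw [coeff_pderiv, map_mul, map_add, map_natCast, map_one, L.mul]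
      refine mul_le_one₀ (hL.im i' j _) (L.nonneg _) ?_
      have h1 : ((e (Sum.inl s) : Ω) + 1) = ((e (Sum.inl s) + 1 : ℕ) : Ω) := by push_cast; ring
      rw [h1]
      exact L.nat_le _
    · rcases s with s | s
      · exact hiy s
      · exact hiy s
  have hderΦ : ∀ j s, L.nm (aeval x (pderiv s (M.Φ i j))) ≤ 1 := by
    intro j s
    refine sb_le (fun e => ?_) hx.le
    rw [coeff_pderiv, map_mul, map_add, map_natCast, map_one, L.mul]
    refine mul_le_one₀ (hLm.iΦ i j _) (L.nonneg _) ?_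
    have h1 : ((e s : Ω) + 1) = ((e s + 1 : ℕ) : Ω) := by push_cast; ring
    rw [h1]
    exact L.nat_le _
  have htt : 0 ≤ t * t := mul_nonneg ht ht
  have hdv : ∀ s, L.nm (M.dv i x (fun n => x' n - x n) s) ≤ t := by
    intro s
    refine L.sum_le _ _ ht fun n _ => ?_
    rw [L.mul]
    exact (mul_le_of_le_one_left (L.nonneg _) (hderΦ s n)).trans (h n)
  have hDt : ∀ j, L.nm (D j) ≤ t := by
    intro j
    refine L.sum_le _ _ ht fun n _ => ?_
    rw [L.mul]
    exact (mul_le_of_le_one_left (L.nonneg _) (hder j n)).trans (hdv n)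
  have htay : ∀ j, L.nm (w j - A.mv i' y y j - D j) ≤ t * t := by
    intro j
    have h1 := sb_tay (L := L) (hL.im i' j) (x := Sum.elim y' y) (y := Sum.elim y y) (t := t)
      (fun s => by
        rcases s with s | s
        · exact hiy' s
        · exact hiy s) (fun s => by
        rcases s with s | s
        · exact hiy s
        · exact hiy s) ht (fun s => by
        rcases s with s | s
        · exact hyy s
        · change L.nm (y s - y s) ≤ t
          rw [sub_self, L.zero]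
          exact ht)
    rw [Fintype.sum_sum_type] at h1
    simp only [Sum.elim_inl, Sum.elim_inr, sub_self, mul_zero, Finset.sum_const_zero,
      add_zero] at h1
    have h2 : ∀ s, L.nm (y' s - y s - M.dv i x (fun n => x' n - x n) s) ≤ t * t := fun s =>
      sb_tay (hLm.iΦ i s) hix' hx.le ht h
    have e : w j - A.mv i' y y j - D j = (w j - A.mv i' y y j -
        ∑ s, aeval (Sum.elim y y) (pderiv (Sum.inl s) (A.m i' j)) * (y' s - y s)) +
        ∑ s, aeval (Sum.elim y y) (pderiv (Sum.inl s) (A.m i' j)) *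
          (y' s - y s - M.dv i x (fun n => x' n - x n) s) := by
      have e2 : D j = ∑ s, aeval (Sum.elim y y) (pderiv (Sum.inl s) (A.m i' j)) *
          M.dv i x (fun n => x' n - x n) s := rfl
      rw [e2]
      simp only [mul_sub, Finset.sum_sub_distrib]
      ring
    rw [e]
    refine (L.add _ _).trans (max_le h1 (L.sum_le _ _ htt fun s _ => ?_))
    rw [L.mul]
    exact (mul_le_of_le_one_left (L.nonneg _) (hder j s)).trans (h2 s)
  -- the coordinates
  have hm : ∀ a x : Ω, L.nm a ≤ 1 → L.nm x ≤ t * t → L.nm (a * x) ≤ t * t := by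
    intro a x ha hx
    rw [L.mul]
    exact (mul_le_of_le_one_left (L.nonneg _) ha).trans hx
  have key : ∀ l, L.nm (w l - w A.j₀ * o l - (D l - o l * D A.j₀)) ≤ t * t := by
    intro l
    have e : w l - w A.j₀ * o l - (D l - o l * D A.j₀) =
        (w l - A.mv i' y y l - D l) - o l * (w A.j₀ - A.mv i' y y A.j₀ - D A.j₀) := by
      rw [e1 l]
      ring
    rw [e]
    exact (L.sub _ _).trans (max_le (htay l) (hm _ _ (hio l) (htay A.j₀)))
  have hzl : ∀ l, L.nm ((w A.j₀)⁻¹ * w l - o l) ≤ t := by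
    intro l
    have e : (w A.j₀)⁻¹ * w l - o l = (w A.j₀)⁻¹ *
        ((w l - w A.j₀ * o l - (D l - o l * D A.j₀)) + (D l - o l * D A.j₀)) := by
      field_simp
      ring
    rw [e, L.mul, L.inv, hw1, inv_one, one_mul]
    refine (L.add _ _).trans (max_le ((key l).trans (mul_le_of_le_one_left ht ht1.le))
      ((L.sub _ _).trans (max_le (hDt l) ?_)))
    rw [L.mul]
    exact (mul_le_of_le_one_left (L.nonneg _) (hio l)).trans (hDt A.j₀)
  refine ⟨fun l => (w A.j₀)⁻¹ * w l, ⟨co_smul hA.hm hcw (inv_ne_zero hw0),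
    inv_mul_cancel₀ hw0, hzl⟩, fun l => ?_⟩
  rw [om_c_eq, om_q_eq]
  change L.nm (y n * A.mv i' y y A.j₀ * ((w A.j₀)⁻¹ * w l - o l) -
    y n * (D l - o l * D A.j₀)) ≤ t * t
  have e : y n * A.mv i' y y A.j₀ * ((w A.j₀)⁻¹ * w l - o l) - y n * (D l - o l * D A.j₀) =
      y n * ((w l - w A.j₀ * o l - (D l - o l * D A.j₀)) -
        (w A.j₀ - A.mv i' y y A.j₀) * ((w A.j₀)⁻¹ * w l - o l)) := by
    have : (w A.j₀) * ((w A.j₀)⁻¹ * w l) = w l := by
      rw [← mul_assoc, mul_inv_cancel₀ hw0, one_mul]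
    linear_combination y n * this
  rw [e]
  refine hm _ _ (hiy n) ((L.sub _ _).trans (max_le (key l) ?_))
  rw [L.mul]
  exact mul_le_mul (hwc A.j₀) (hzl l) (L.nonneg _) ht

end mf

end GX
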