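import Pool.Agent.Lib.MP_f80667_ag.Sb.G
import Pool.Agent.Lib.MP_f80667_ag.Sb.E

/-! The points congruent to `0` modulo `p` have no torsion. -/

open ZC BE PE CV IntermediateField MvPolynomial

namespace GX

section tf

variable {F : Type} [Field F] {N' k' : ℕ} {ι' : Type} {A : Gv F N' k' ι'}
  {K Ω : Type} [Field K] [Field Ω] [Algebra K Ω] [Algebra F Ω] {L : Ld K Ω}

/-- The multiples of a point up to numbers of norm `≤ t ^ 2`. -/
theorem nc_mul (hA : A.Ok) (hL : Lga L A) {t : ℝ} (ht1 : t < 1) (ht : 0 ≤ t)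
    {a : (Xf A.a).pt Ω} {z : Fin N' → Ω} (hz : Nc L A t a z) :
    letI := A.G.grp Ω
    (∃ c, Nc L A t (-a) c) ∧ ∀ n : ℕ, ∃ x, Nc L A t (n • a) x ∧ ∀ j,
      L.nm (x j - algebraMap F Ω (A.o j) - (n : Ω) * (z j - algebraMap F Ω (A.o j))) ≤ t * t := by
  let _ : AddCommGroup ((Xf A.a).pt Ω) := A.G.grp Ω
  change (∃ c, Nc L A t (-a) c) ∧ ∀ n : ℕ, ∃ x, Nc L A t (n • a) x ∧ ∀ j,
    L.nm (x j - algebraMap F Ω (A.o j) - (n : Ω) * (z j - algebraMap F Ω (A.o j))) ≤ t * t
  have h0 : Nc L A t (0 : (Xf A.a).pt Ω) fun j => algebraMap F Ω (A.o j) := nc_zero hA ht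
  obtain ⟨c, hc, hcj⟩ := nc_sub hA hL ht1 ht (R'' := -a) h0 hz (neg_add_cancel a)
  refine ⟨⟨c, hc⟩, fun n => ?_⟩
  induction n with
  | zero =>
    refine ⟨_, by rw [zero_nsmul]; exact h0, fun j => ?_⟩
    rw [Nat.cast_zero, zero_mul, sub_self, sub_self, L.zero]
    exact mul_nonneg ht ht
  | succ n ih =>
    obtain ⟨x, hx, hxj⟩ := ih
    obtain ⟨x', hx', hxj'⟩ := nc_sub hA hL ht1 ht (R'' := (n + 1) • a) hx hc (by
      change (n + 1) • a + -a = n • a
      rw [succ_nsmul, add_neg_cancel_right])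
    refine ⟨x', hx', fun j => ?_⟩
    have e : x' j - algebraMap F Ω (A.o j) - ((n + 1 : ℕ) : Ω) *
        (z j - algebraMap F Ω (A.o j)) =
        (x' j - algebraMap F Ω (A.o j) - (x j - c j)) +
          ((x j - algebraMap F Ω (A.o j) - (n : Ω) * (z j - algebraMap F Ω (A.o j))) -
            (c j - algebraMap F Ω (A.o j) - (algebraMap F Ω (A.o j) - z j))) := by
      push_cast
      ring
    rw [e]
    exact (L.add _ _).trans (max_le (hxj' j) ((L.sub _ _).trans (max_le (hxj j) (hcj j))))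

/-- The distance to `0`. -/
theorem nc_dist {t : ℝ} {a : (Xf A.a).pt Ω} {z : Fin N' → Ω}
    (hz : Nc L A t a z) : ∃ t', 0 ≤ t' ∧ t' ≤ t ∧ Nc L A t' a z ∧
      ∃ j, L.nm (z j - algebraMap F Ω (A.o j)) = t' := by
  obtain ⟨j, -, hj⟩ := Finset.exists_max_image Finset.univ
    (fun j => L.nm (z j - algebraMap F Ω (A.o j))) ⟨A.j₀, Finset.mem_univ _⟩
  exact ⟨_, L.nonneg _, hz.2.2 j, ⟨hz.1, hz.2.1, fun i => hj i (Finset.mem_univ i)⟩, j, rfl⟩

/-- The point at distance `0`. -/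
theorem nc_eq (hA : A.Ok) {a : (Xf A.a).pt Ω} {z : Fin N' → Ω} (hz : Nc L A 0 a z) :
    a = (A.G.grp Ω).zero := by
  have h : z = fun j => algebraMap F Ω (A.o j) := funext fun j =>
    sub_eq_zero.1 ((L.zero_iff _).1 (le_antisymm (hz.2.2 j) (L.nonneg _)))
  rw [h] at hz
  exact co_eq hz.1 (hA.co_zero Ω)

/-- Multiples by numbers of norm greater than the distance. -/
theorem tf_one (hA : A.Ok) (hL : Lga L A) {t : ℝ} (ht1 : t < 1) (ht : 0 ≤ t)
    {a : (Xf A.a).pt Ω} {z : Fin N' → Ω} (hz : Nc L A t a z) {n : ℕ}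
    (hn : (A.G.grp Ω).nsmul n a = (A.G.grp Ω).zero) (j : Fin N') :
    L.nm (n : Ω) * L.nm (z j - algebraMap F Ω (A.o j)) ≤ t * t := by
  let _ : AddCommGroup ((Xf A.a).pt Ω) := A.G.grp Ω
  obtain ⟨-, h⟩ := nc_mul hA hL ht1 ht hz
  obtain ⟨x, hx, hxj⟩ := h n
  have h1 : n • a = (0 : (Xf A.a).pt Ω) := hn
  change Nc L A t (n • a) x at hx
  rw [h1] at hx
  have h0 : Nc L A t (0 : (Xf A.a).pt Ω) fun j => algebraMap F Ω (A.o j) := nc_zero hA ht
  have h2 := hxj j
  rw [hx.uniq h0, sub_self, zero_sub, L.neg, L.mul] at h2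
  exact h2

/-- The multiple by `p`, to second order. -/
theorem tf_two (hA : A.Ok) (hL : Lga L A) {t : ℝ} (ht1 : t < 1) (ht : 0 < t)
    {a : (Xf A.a).pt Ω} {z : Fin N' → Ω} (hz : Nc L A t a z) (h2 : 2 < L.p)
    (htp : L.nm (L.p : Ω) ≤ t)
    (hn : (A.G.grp Ω).nsmul L.p a = (A.G.grp Ω).zero) (j : Fin N') :
    L.nm (L.p : Ω) * L.nm (z j - algebraMap F Ω (A.o j)) ≤ t * t * t := by
  obtain ⟨i, hμ₀, hi⟩ := exists_mv hA hL ht1 ht.le (A := A) (L := L)
  let _ : AddCommGroup ((Xf A.a).pt Ω) := A.G.grp Ω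
  obtain ⟨⟨c, hc⟩, hmul⟩ := nc_mul hA hL ht1 ht.le hz
  change Nc L A t (-a) c at hc
  choose x hx hxj using hmul
  change ∀ n : ℕ, Nc L A t (n • a) (x n) at hx
  have hpa : L.p • a = (0 : (Xf A.a).pt Ω) := hn
  set o : Fin N' → Ω := fun j => algebraMap F Ω (A.o j) with ho
  have h0 : Nc L A t (0 : (Xf A.a).pt Ω) o := nc_zero hA ht.le
  have hio : ∀ j, L.nm (o j) ≤ 1 := hL.io
  have hic := hc.int hL ht1.le
  have hx0 : x 0 = o := by
    have := hx 0
    rw [zero_nsmul] at this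
    exact this.uniq h0
  have hx1 : x 1 = z := by
    have := hx 1
    rw [one_nsmul] at this
    exact this.uniq hz
  have hxp : x L.p = o := by
    have := hx L.p
    rw [hpa] at this
    exact this.uniq h0
  -- the values of `m`
  have e1 : ∀ n j, A.mv i (x n) c j = A.mv i (x n) c A.j₀ * x (n + 1) j := fun n j => by
    obtain ⟨h3, h4, -⟩ := hi _ _ _ _ (hx n) hc
    refine hA.mv_eq (R := (n + 1) • a) (hx n).1 hc.1 ?_ ?_ (hx (n + 1)).1 (hx (n + 1)).2.1 j
    · change (n + 1) • a + -a = n • a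
      rw [succ_nsmul, add_neg_cancel_right]
    · intro h5
      rw [h5, Pi.zero_apply, L.zero] at h4
      exact zero_ne_one h4
  have e2 : ∀ n j, A.mv i (x n) o j = A.mv i (x n) o A.j₀ * x n j := fun n j => by
    obtain ⟨h3, h4, -⟩ := hi _ _ _ _ (hx n) h0
    refine hA.mv_eq (R := n • a) (hx n).1 h0.1 (add_zero _) ?_ (hx n).1 (hx n).2.1 j
    intro h5
    rw [h5, Pi.zero_apply, L.zero] at h4
    exact zero_ne_one h4
  -- the functions with values in `Ω × Ω`
  have hν : Un (pn L t) := pn_un ht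
  let δ : Ω →+* Ω × Ω := RingHom.prod (RingHom.id Ω) (RingHom.id Ω)
  have hδ : ∀ a : Ω, pn L t (δ a) ≤ L.nm a := fun a => (pn_diag ht a).le
  let yh : Fin N' → Ω × Ω := fun s => (c s, o s)
  have hyh : ∀ s, pn L t (yh s) ≤ 1 := by
    intro s
    refine max_le (max_le (hic s) (hio s)) ?_
    rw [div_le_one ht]
    exact hc.2.2 s
  let mh : Fin N' → (Fin N' → Ω) → Ω × Ω := fun j y =>
    aeval (Sum.elim (fun s => δ (y s)) yh) (A.m i j)
  have hmh : ∀ j y, mh j y = (A.mv i y c j, A.mv i y o j) := by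
    intro j y
    have h3 : (AlgHom.fst F Ω Ω) (mh j y) = A.mv i y c j := by
      change (AlgHom.fst F Ω Ω) (aeval _ (A.m i j)) = aeval _ (A.m i j)
      rw [← AlgHom.comp_apply, MvPolynomial.comp_aeval]
      congr 2
      funext s
      rcases s with s | s <;> rfl
    have h4 : (AlgHom.snd F Ω Ω) (mh j y) = A.mv i y o j := by
      change (AlgHom.snd F Ω Ω) (aeval _ (A.m i j)) = aeval _ (A.m i j)
      rw [← AlgHom.comp_apply, MvPolynomial.comp_aeval]
      congr 2
      funext s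
      rcases s with s | s <;> rfl
    exact Prod.ext h3 h4
  have hco : ∀ j e, pn L t (algebraMap F (Ω × Ω) ((A.m i j).coeff e)) ≤ 1 := by
    intro j e
    have h3 : algebraMap F (Ω × Ω) ((A.m i j).coeff e) =
      (algebraMap F Ω ((A.m i j).coeff e), algebraMap F Ω ((A.m i j).coeff e)) := rfl
    rw [h3, pn_diag ht]
    exact hL.im i j e
  have hTm : ∀ j, Tl (pn L t) L.nm δ o t (mh j) := by
    intro j
    refine ⟨?_, fun s => aeval (Sum.elim (fun s => δ (o s)) yh)
      (pderiv (Sum.inl s) (A.m i j)), fun s => ?_, fun y hy => ?_⟩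
    · rw [hmh]
      refine max_le (max_le ?_ ?_) ?_
      · exact sb_le (hL.im i j) fun s => by
          rcases s with s | s
          · exact hio s
          · exact hic s
      · exact sb_le (hL.im i j) fun s => by
          rcases s with s | s
          · exact hio s
          · exact hio s
      · rw [div_le_one ht]
        refine sb_close (hL.im i j) (fun s => ?_) (fun s => ?_) ht.le fun s => ?_
        · rcases s with s | s
          · exact hio s
          · exact hic s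
        · rcases s with s | s
          · exact hio s
          · exact hio s
        · rcases s with s | s
          · change L.nm (o s - o s) ≤ t
            rw [sub_self, L.zero]
            exact ht.le
          · exact hc.2.2 s
    · refine (hν.tay (hco j) (x := Sum.elim (fun s => δ (o s)) yh)
        (y := Sum.elim (fun s => δ (o s)) yh) ?_ ?_ ht.le ?_).2 (Sum.inl s)
      · intro s
        rcases s with s | s
        · exact (hδ _).trans (hio s)
        · exact hyh s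
      · intro s
        rcases s with s | s
        · exact (hδ _).trans (hio s)
        · exact hyh s
      · intro s
        rw [sub_self, hν.zero]
        exact ht.le
    · have hiy : ∀ s, L.nm (y s) ≤ 1 := fun s => by
        have e : y s = (y s - o s) + o s := by ring
        rw [e]
        exact (L.add _ _).trans (max_le ((hy s).trans ht1.le) (hio s))
      have h3 := (hν.tay (hco j) (x := Sum.elim (fun s => δ (y s)) yh)
        (y := Sum.elim (fun s => δ (o s)) yh) (t := t) (fun s => by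
          rcases s with s | s
          · exact (hδ _).trans (hiy s)
          · exact hyh s) (fun s => by
          rcases s with s | s
          · exact (hδ _).trans (hio s)
          · exact hyh s) ht.le (fun s => by
          rcases s with s | s
          · change pn L t (δ (y s) - δ (o s)) ≤ t
            rw [← map_sub]
            exact (hδ _).trans (hy s)
          · change pn L t (yh s - yh s) ≤ t
            rw [sub_self, hν.zero]
            exact ht.le)).1
      rw [Fintype.sum_sum_type] at h3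
      simp only [Sum.elim_inl, Sum.elim_inr, sub_self, mul_zero, Finset.sum_const_zero,
        add_zero] at h3
      simp only [map_sub]
      exact h3
  -- the function `H`
  let Hf : (Fin N' → Ω) → Ω × Ω := fun y =>
    (mh j y - mh A.j₀ y * δ (y j)) * ((mh A.j₀ o + mh A.j₀ o) - mh A.j₀ y)
  have hTH : Tl (pn L t) L.nm δ o t Hf := by
    refine Tl.mul hν ht.le ht1.le hδ (Tl.sub hν (hTm j) (Tl.mul hν ht.le ht1.le hδ (hTm A.j₀)
      (Tl.coord hν ht.le j ((hδ _).trans (hio j))))) (Tl.sub hν (Tl.const hν ht.le ?_)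
        (hTm A.j₀))
    exact (hν.add _ _).trans (max_le (hTm A.j₀).1 (hTm A.j₀).1)
  have hHx : ∀ n, Hf (x n) = (A.mv i (x n) c A.j₀ * (x (n + 1) j - x n j) *
      ((A.mv i o c A.j₀ + A.mv i o c A.j₀) - A.mv i (x n) c A.j₀), 0) := by
    intro n
    change (mh j (x n) - mh A.j₀ (x n) * δ (x n j)) *
      ((mh A.j₀ o + mh A.j₀ o) - mh A.j₀ (x n)) = _
    rw [hmh, hmh, hmh]
    refine Prod.ext ?_ ?_
    · change (A.mv i (x n) c j - A.mv i (x n) c A.j₀ * x n j) *
        ((A.mv i o c A.j₀ + A.mv i o c A.j₀) - A.mv i (x n) c A.j₀) = _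
      rw [e1 n j]
      ring
    · change (A.mv i (x n) o j - A.mv i (x n) o A.j₀ * x n j) *
        ((A.mv i o o A.j₀ + A.mv i o o A.j₀) - A.mv i (x n) o A.j₀) = 0
      rw [e2 n j, sub_self, zero_mul]
  obtain ⟨-, Mc, hMc, hlin⟩ := hTH
  -- the sum of the displacements
  have hsum : ∀ s, L.nm (∑ n ∈ Finset.range L.p, (x n s - o s)) ≤ t * t := by
    intro s
    have e : ∑ n ∈ Finset.range L.p, (x n s - o s) =
        ∑ n ∈ Finset.range L.p, (x n s - o s - (n : Ω) * (z s - o s)) +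
          (∑ n ∈ Finset.range L.p, (n : Ω)) * (z s - o s) := by
      rw [Finset.sum_mul, ← Finset.sum_add_distrib]
      exact Finset.sum_congr rfl fun n _ => by ring
    rw [e]
    refine (L.add _ _).trans (max_le (L.sum_le _ _ (mul_nonneg ht.le ht.le)
      fun n _ => hxj n s) ?_)
    rw [L.mul]
    refine mul_le_mul ?_ (hz.2.2 s) (L.nonneg _) ht.le
    obtain ⟨m, hm⟩ : ∃ m, L.p = 2 * m + 1 := by
      rcases L.pp.eq_two_or_odd' with h3 | ⟨m, h3⟩
      · omega
      · exact ⟨m, h3⟩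
    have h3 : ∑ n ∈ Finset.range L.p, n = L.p * m := by
      rw [Finset.sum_range_id, hm]
      have : (2 * m + 1) * (2 * m + 1 - 1) = ((2 * m + 1) * m) * 2 := by
        have : 2 * m + 1 - 1 = 2 * m := by omega
        rw [this]
        ring
      rw [this, Nat.mul_div_cancel _ two_pos]
    rw [← Nat.cast_sum, h3, Nat.cast_mul, L.mul]
    exact (mul_le_of_le_one_right (L.nonneg _) (L.nat_le _)).trans htp
  have hsumH : pn L t (∑ n ∈ Finset.range L.p, Hf (x n) - (L.p : Ω × Ω) * Hf o) ≤ t * t := by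
    have e : ∑ n ∈ Finset.range L.p, Hf (x n) - (L.p : Ω × Ω) * Hf o =
        ∑ n ∈ Finset.range L.p, (Hf (x n) - Hf o - ∑ s, Mc s * δ (x n s - o s)) +
          ∑ s, Mc s * δ (∑ n ∈ Finset.range L.p, (x n s - o s)) := by
      simp only [map_sum, Finset.mul_sum]
      rw [Finset.sum_comm (s := Finset.univ), ← Finset.sum_add_distrib]
      simp only [sub_add_cancel]
      rw [Finset.sum_sub_distrib, Finset.sum_const, Finset.card_range, nsmul_eq_mul]
    rw [e]
    refine (hν.add _ _).trans (max_le (hν.sum _ (mul_nonneg ht.le ht.le) fun n _ =>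
      hlin (x n) (hx n).2.2) (hν.sum _ (mul_nonneg ht.le ht.le) fun s _ => ?_))
    have := hν.mul_le zero_le_one (hMc s) ((hδ _).trans (hsum s))
    rwa [one_mul] at this
  have hdif := pn_dif ht hsumH
  have hHo : Hf o = Hf (x 0) := by rw [hx0]
  rw [hHo] at hdif
  simp only [hHx] at hdif
  set ν0 : Ω := A.mv i o c A.j₀ with hν0
  have hfst : (∑ n ∈ Finset.range L.p, (A.mv i (x n) c A.j₀ * (x (n + 1) j - x n j) *
      ((ν0 + ν0) - A.mv i (x n) c A.j₀), (0 : Ω)) - (L.p : Ω × Ω) *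
      (A.mv i (x 0) c A.j₀ * (x (0 + 1) j - x 0 j) * ((ν0 + ν0) - A.mv i (x 0) c A.j₀),
        (0 : Ω))).1 = ∑ n ∈ Finset.range L.p, (A.mv i (x n) c A.j₀ * (x (n + 1) j - x n j) *
      ((ν0 + ν0) - A.mv i (x n) c A.j₀)) - (L.p : Ω) * (ν0 * (z j - o j) * ν0) := by
    rw [Prod.fst_sub, Prod.fst_sum, Prod.fst_mul, Prod.fst_natCast, zero_add, hx1, hx0]
    ring
  have hsnd : (∑ n ∈ Finset.range L.p, (A.mv i (x n) c A.j₀ * (x (n + 1) j - x n j) *
      ((ν0 + ν0) - A.mv i (x n) c A.j₀), (0 : Ω)) - (L.p : Ω × Ω) *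
      (A.mv i (x 0) c A.j₀ * (x (0 + 1) j - x 0 j) * ((ν0 + ν0) - A.mv i (x 0) c A.j₀),
        (0 : Ω))).2 = 0 := by
    rw [Prod.snd_sub, Prod.snd_sum, Prod.snd_mul]
    simp
  rw [hfst, hsnd, sub_zero] at hdif
  -- the telescope
  have hνn : ∀ n, L.nm (A.mv i (x n) c A.j₀ - ν0) ≤ t := by
    intro n
    have h3 := (hi _ _ _ _ (hx n) hc).1 A.j₀
    have h4 := (hi _ _ _ _ h0 hc).1 A.j₀
    have e : A.mv i (x n) c A.j₀ - ν0 = (A.mv i (x n) c A.j₀ - A.mv i o o A.j₀) -
        (A.mv i o c A.j₀ - A.mv i o o A.j₀) := by ring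
    rw [e]
    exact (L.sub _ _).trans (max_le h3 h4)
  have hν01 : L.nm ν0 = 1 := (hi _ _ _ _ h0 hc).2.1
  have htel : L.nm (∑ n ∈ Finset.range L.p, (A.mv i (x n) c A.j₀ * (x (n + 1) j - x n j) *
      ((ν0 + ν0) - A.mv i (x n) c A.j₀))) ≤ t * t * t := by
    have e : ∑ n ∈ Finset.range L.p, (A.mv i (x n) c A.j₀ * (x (n + 1) j - x n j) *
        ((ν0 + ν0) - A.mv i (x n) c A.j₀)) = ν0 * ν0 *
        ∑ n ∈ Finset.range L.p, (x (n + 1) j - x n j) - ∑ n ∈ Finset.range L.p,
          ((A.mv i (x n) c A.j₀ - ν0) * (A.mv i (x n) c A.j₀ - ν0)) *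
            (x (n + 1) j - x n j) := by
      rw [Finset.mul_sum, ← Finset.sum_sub_distrib]
      exact Finset.sum_congr rfl fun n _ => by ring
    rw [e, Finset.sum_range_sub (fun n => x n j), hxp, hx0, sub_self, mul_zero, zero_sub, L.neg]
    refine L.sum_le _ _ (mul_nonneg (mul_nonneg ht.le ht.le) ht.le) fun n _ => ?_
    rw [L.mul, L.mul]
    refine mul_le_mul (mul_le_mul (hνn n) (hνn n) (L.nonneg _) ht.le) ?_ (L.nonneg _)
      (mul_nonneg ht.le ht.le)
    have e3 : x (n + 1) j - x n j = (x (n + 1) j - o j) - (x n j - o j) := by ring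
    rw [e3]
    exact (L.sub _ _).trans (max_le ((hx (n + 1)).2.2 j) ((hx n).2.2 j))
  have hfin : L.nm ((L.p : Ω) * (ν0 * (z j - o j) * ν0)) ≤ t * t * t := by
    have e : (L.p : Ω) * (ν0 * (z j - o j) * ν0) =
        (∑ n ∈ Finset.range L.p, (A.mv i (x n) c A.j₀ * (x (n + 1) j - x n j) *
          ((ν0 + ν0) - A.mv i (x n) c A.j₀))) -
        ((∑ n ∈ Finset.range L.p, (A.mv i (x n) c A.j₀ * (x (n + 1) j - x n j) *
          ((ν0 + ν0) - A.mv i (x n) c A.j₀))) - (L.p : Ω) * (ν0 * (z j - o j) * ν0)) := by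
      ring
    rw [e]
    exact (L.sub _ _).trans (max_le htel hdif)
  rw [L.mul, L.mul, L.mul, hν01, one_mul, mul_one] at hfin
  exact hfin

/-- **There is no torsion.** -/
theorem tf_prime (hA : A.Ok) (hL : Lga L A) (h2 : 2 < L.p) (hp : 0 < L.nm (L.p : Ω))
    {a : (Xf A.a).pt Ω} {z : Fin N' → Ω} (hz : Nc L A (L.nm (L.p : Ω)) a z) {n : ℕ}
    (hnp : n.Prime) (hn : (A.G.grp Ω).nsmul n a = (A.G.grp Ω).zero) :
    a = (A.G.grp Ω).zero := by
  obtain ⟨t, ht, htp, hzt, j, hj⟩ := nc_dist hz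
  have ht1 : t < 1 := htp.trans_lt L.lt
  have h1 := tf_one hA hL ht1 ht hzt hn j
  rw [hj] at h1
  rcases ht.eq_or_lt with h0 | h0
  · rw [← h0] at hzt
    exact nc_eq hA hzt
  · exfalso
    have h3 : L.nm (n : Ω) ≤ t := le_of_mul_le_mul_right h1 h0
    by_cases hnq : n = L.p
    · subst hnq
      have h4 := tf_two hA hL ht1 h0 hzt h2 h3 hn j
      rw [hj] at h4
      have h5 : L.nm (L.p : Ω) ≤ t * t := le_of_mul_le_mul_right h4 h0
      have h6 : t * t < L.nm (L.p : Ω) := by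
        calc t * t ≤ L.nm (L.p : Ω) * t := mul_le_mul_of_nonneg_right htp ht
          _ < L.nm (L.p : Ω) := mul_lt_of_lt_one_right hp ht1
      exact absurd h5 (not_le.2 h6)
    · have h4 : ¬ L.p ∣ n := fun hd =>
        hnq ((Nat.prime_dvd_prime_iff_eq L.pp hnp).1 hd).symm
      rw [L.nat_unit h4] at h3
      exact absurd h3 (not_le.2 ht1)

/-- **There is no torsion**: composite numbers. -/
theorem tf_all (hA : A.Ok) (hL : Lga L A) (h2 : 2 < L.p) (hp : 0 < L.nm (L.p : Ω)) (n : ℕ)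
    (hn0 : n ≠ 0) : ∀ (a : (Xf A.a).pt Ω) (z : Fin N' → Ω),
      Nc L A (L.nm (L.p : Ω)) a z → (A.G.grp Ω).nsmul n a = (A.G.grp Ω).zero →
        a = (A.G.grp Ω).zero := by
  let _ : AddCommGroup ((Xf A.a).pt Ω) := A.G.grp Ω
  change ∀ (a : (Xf A.a).pt Ω) (z : Fin N' → Ω),
      Nc L A (L.nm (L.p : Ω)) a z → n • a = 0 → a = 0
  induction n using Nat.recOnMul with
  | zero => exact absurd rfl hn0
  | one =>
    intro a z _ h
    rwa [one_nsmul] at h
  | prime l hl => exact fun a z hz h => tf_prime hA hL h2 hp hz hl h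
  | mul m m' ih ih' =>
    intro a z hz h
    obtain ⟨-, hmul⟩ := nc_mul hA hL L.lt (L.nonneg _) hz
    obtain ⟨x, hx, -⟩ := hmul m'
    have h1 : m' • a = (0 : (Xf A.a).pt Ω) :=
      ih (left_ne_zero_of_mul hn0) _ x hx (by rw [← mul_nsmul']; exact h)
    exact ih' (right_ne_zero_of_mul hn0) a z hz h1

end tf

end GX
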