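import Pool.Agent.Lib.MP_f80667_ag.Sb.C

/-! Integrality and good reduction at all places at which finitely many numbers are integral. -/

open ZC BE PE CV IntermediateField MvPolynomial

namespace GX

/-- The elements of an ideal: if the values of the generators are small, the value is small. -/
theorem sp_ind {F : Type} [Field F] {σ : Type} (G : Set (MvPolynomial σ F))
    {h : MvPolynomial σ F} (hh : h ∈ Ideal.span G) :
    ∃ T : Finset F, ∀ (K Ω : Type) [Field K] [Field Ω] [Algebra K Ω] [Algebra F Ω]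
      (L : Ld K Ω), (∀ t ∈ T, L.nm (algebraMap F Ω t) ≤ 1) → ∀ x : σ → Ω,
        (∀ i, L.nm (x i) ≤ 1) → (∀ g ∈ G, L.nm (aeval x g) < 1) → L.nm (aeval x h) < 1 := by
  classical
  induction hh using Submodule.span_induction with
  | mem g hg => exact ⟨∅, fun K Ω _ _ _ _ L _ x _ h => h g hg⟩
  | zero =>
    refine ⟨∅, fun K Ω _ _ _ _ L _ x _ _ => ?_⟩
    rw [map_zero, L.zero]
    exact zero_lt_one
  | add p q _ _ hp hq =>
    obtain ⟨T, hT⟩ := hp
    obtain ⟨T', hT'⟩ := hq
    refine ⟨T ∪ T', fun K Ω _ _ _ _ L ht x hx hg => ?_⟩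
    rw [map_add]
    exact (L.add _ _).trans_lt (max_lt
      (hT K Ω L (fun t h => ht t (Finset.mem_union_left _ h)) x hx hg)
      (hT' K Ω L (fun t h => ht t (Finset.mem_union_right _ h)) x hx hg))
  | smul a p _ hp =>
    obtain ⟨T, hT⟩ := hp
    refine ⟨T ∪ a.support.image fun e => a.coeff e, fun K Ω _ _ _ _ L ht x hx hg => ?_⟩
    rw [smul_eq_mul, map_mul, L.mul]
    have h1 : L.nm (aeval x a) ≤ 1 := by
      refine sb_le (fun e => ?_) hx
      by_cases he : e ∈ a.support
      · exact ht _ (Finset.mem_union_right _ (Finset.mem_image_of_mem _ he))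
      · rw [notMem_support_iff.1 he, map_zero, L.zero]
        exact zero_le_one
    exact (mul_le_of_le_one_left (L.nonneg _) h1).trans_lt
      (hT K Ω L (fun t h => ht t (Finset.mem_union_left _ h)) x hx hg)

/-- The coefficients of finitely many polynomials. -/
theorem sp_coef {F : Type} [Field F] {σ α : Type} [Fintype α] (p : α → MvPolynomial σ F) :
    ∃ T : Finset F, ∀ (K Ω : Type) [Field K] [Field Ω] [Algebra K Ω] [Algebra F Ω]
      (L : Ld K Ω), (∀ t ∈ T, L.nm (algebraMap F Ω t) ≤ 1) →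
        ∀ i e, L.nm (algebraMap F Ω ((p i).coeff e)) ≤ 1 := by
  classical
  refine ⟨Finset.univ.biUnion fun i => (p i).support.image fun e => (p i).coeff e,
    fun K Ω _ _ _ _ L ht i e => ?_⟩
  by_cases he : e ∈ (p i).support
  · exact ht _ (Finset.mem_biUnion.2 ⟨i, Finset.mem_univ i, Finset.mem_image_of_mem _ he⟩)
  · rw [notMem_support_iff.1 he, map_zero, L.zero]
    exact zero_le_one

section gv

variable {F : Type} [Field F] {N' k' : ℕ} {ι' : Type} {A : Gv F N' k' ι'}

/-- **Almost everywhere the group variety has good reduction.** -/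
theorem exists_lga (hA : A.Ok) : ∃ T : Finset F, ∀ (K Ω : Type) [Field K] [Field Ω]
    [Algebra K Ω] [Algebra F Ω] (L : Ld K Ω), (∀ t ∈ T, L.nm (algebraMap F Ω t) ≤ 1) →
      Lga L A := by
  classical
  let B := AlgebraicClosure F
  let G : Set (MvPolynomial (Fin N' ⊕ Fin N') F) :=
    (Set.range fun i => rename Sum.inl (A.a i)) ∪ (Set.range fun i => rename Sum.inr (A.a i)) ∪
      {g | ∃ i j, g = A.m i j}
  have hrad : ∀ j l : Fin N', ∃ n : ℕ,
      (X (Sum.inl j) * X (Sum.inr l) : MvPolynomial (Fin N' ⊕ Fin N') F) ^ n ∈ Ideal.span G := by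
    intro j l
    have h1 : (X (Sum.inl j) * X (Sum.inr l) : MvPolynomial (Fin N' ⊕ Fin N') F) ∈
        (Ideal.span G).radical := by
      rw [← MvPolynomial.vanishingIdeal_zeroLocus_eq_radical (K := B)]
      intro y hy
      rw [MvPolynomial.zeroLocus_span] at hy
      rw [map_mul, aeval_X, aeval_X]
      by_contra hne
      have hx : (fun s => y (Sum.inl s)) ≠ 0 := by
        intro h0
        apply hne
        have := congrFun h0 j
        change y (Sum.inl j) = 0 at this
        rw [this, zero_mul]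
      have hx' : (fun s => y (Sum.inr s)) ≠ 0 := by
        intro h0
        apply hne
        have := congrFun h0 l
        change y (Sum.inr l) = 0 at this
        rw [this, mul_zero]
      have h2 : ∀ i, aeval (fun s => y (Sum.inl s)) (A.a i) = 0 := by
        intro i
        have := hy _ (Or.inl (Or.inl ⟨i, rfl⟩))
        rwa [aeval_rename] at this
      have h3 : ∀ i, aeval (fun s => y (Sum.inr s)) (A.a i) = 0 := by
        intro i
        have := hy _ (Or.inl (Or.inr ⟨i, rfl⟩))
        rwa [aeval_rename] at this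
      obtain ⟨P, hP⟩ := co_mk hx h2
      obtain ⟨Q, hQ⟩ := co_mk hx' h3
      obtain ⟨i, hi⟩ := hA.ne B P Q _ _ hP hQ
      apply hi
      funext s
      have h4 : Sum.elim (fun s => y (Sum.inl s)) (fun s => y (Sum.inr s)) = y := by
        funext s
        rcases s with s | s <;> rfl
      change aeval (Sum.elim (fun s => y (Sum.inl s)) (fun s => y (Sum.inr s))) (A.m i s) = 0
      rw [h4]
      exact hy _ (Or.inr ⟨i, s, rfl⟩)
    exact h1
  choose n hn using hrad
  choose T hT using fun j l => sp_ind G (hn j l)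
  obtain ⟨T₁, hT₁⟩ := sp_coef fun s : Fin k' × Fin N' => A.m s.1 s.2
  refine ⟨(Finset.univ.image A.o ∪ T₁) ∪ Finset.univ.biUnion fun s : Fin N' × Fin N' => T s.1 s.2,
    fun K Ω _ _ _ _ L ht => ?_⟩
  have him := hT₁ K Ω L fun t h => ht t
    (Finset.mem_union_left _ (Finset.mem_union_right _ h))
  refine ⟨fun j => ht _ (Finset.mem_union_left _ (Finset.mem_union_left _
    (Finset.mem_image_of_mem _ (Finset.mem_univ j)))), fun i j e => him (i, j) e,
    fun P Q x x' hP hQ => ?_⟩
  by_contra hne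
  push Not at hne
  obtain ⟨j, hj⟩ := hP.one
  obtain ⟨l, hl⟩ := hQ.one
  have hint : ∀ s, L.nm (Sum.elim x x' s) ≤ 1 := by
    intro s
    rcases s with s | s
    · exact hP.le s
    · exact hQ.le s
  have h1 := hT j l K Ω L (fun t h => ht t (Finset.mem_union_right _
    (Finset.mem_biUnion.2 ⟨(j, l), Finset.mem_univ _, h⟩))) (Sum.elim x x') hint ?_
  · rw [map_pow, map_mul, aeval_X, aeval_X, L.pow, L.mul] at h1
    change (L.nm (x j) * L.nm (x' l)) ^ n j l < 1 at h1
    rw [hj, hl, one_mul, one_pow] at h1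
    exact lt_irrefl _ h1
  · rintro g ((⟨i, rfl⟩ | ⟨i, rfl⟩) | ⟨i, s, rfl⟩)
    · have h2 : aeval (Sum.elim x x') (rename Sum.inl (A.a i)) = 0 := by
        rw [aeval_rename]
        exact co_zero hP.co i
      rw [h2, L.zero]
      exact zero_lt_one
    · have h2 : aeval (Sum.elim x x') (rename Sum.inr (A.a i)) = 0 := by
        rw [aeval_rename]
        exact co_zero hQ.co i
      rw [h2, L.zero]
      exact zero_lt_one
    · exact lt_of_le_of_ne (sb_le (him (i, s)) hint) (hne i s)

end gv

section mf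

variable {F : Type} [Field F] {N N' k k' : ℕ} {ι ι' : Type} {f : ι → MvPolynomial (Fin N) F}
  {A : Gv F N' k' ι'} {M : Mf f A k}

/-- **Almost everywhere the morphism has good reduction.** -/
theorem exists_lmf (hM : M.Ok) : ∃ T : Finset F, ∀ (K Ω : Type) [Field K] [Field Ω]
    [Algebra K Ω] [Algebra F Ω] (L : Ld K Ω), (∀ t ∈ T, L.nm (algebraMap F Ω t) ≤ 1) →
      Lmf L M := by
  classical
  let B := AlgebraicClosure F
  let G : Set (MvPolynomial (Fin N) F) := Set.range f ∪ {g | ∃ i j, g = M.Φ i j}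
  have hrad : ∀ j : Fin N, ∃ n : ℕ, (X j : MvPolynomial (Fin N) F) ^ n ∈ Ideal.span G := by
    intro j
    have h1 : (X j : MvPolynomial (Fin N) F) ∈ (Ideal.span G).radical := by
      rw [← MvPolynomial.vanishingIdeal_zeroLocus_eq_radical (K := B)]
      intro y hy
      rw [MvPolynomial.zeroLocus_span] at hy
      rw [aeval_X]
      by_contra hne
      have hx : y ≠ 0 := fun h0 => hne (congrFun h0 j)
      have h2 : ∀ i, aeval y (f i) = 0 := fun i => hy _ (Or.inl ⟨i, rfl⟩)
      obtain ⟨P, hP⟩ := co_mk hx h2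
      obtain ⟨i, hi⟩ := hM.ne B P _ hP
      apply hi
      funext s
      exact hy _ (Or.inr ⟨i, s, rfl⟩)
    exact h1
  choose n hn using hrad
  choose T hT using fun j => sp_ind G (hn j)
  obtain ⟨T₁, hT₁⟩ := sp_coef fun s : Fin k × Fin N' => M.Φ s.1 s.2
  refine ⟨T₁ ∪ Finset.univ.biUnion fun s : Fin N => T s, fun K Ω _ _ _ _ L ht => ?_⟩
  have him := hT₁ K Ω L fun t h => ht t (Finset.mem_union_left _ h)
  refine ⟨fun i j e => him (i, j) e, fun P x hP => ?_⟩
  by_contra hne
  push Not at hne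
  obtain ⟨j, hj⟩ := hP.one
  have h1 := hT j K Ω L (fun t h => ht t (Finset.mem_union_right _
    (Finset.mem_biUnion.2 ⟨j, Finset.mem_univ _, h⟩))) x hP.le ?_
  · rw [map_pow, aeval_X, L.pow, hj, one_pow] at h1
    exact lt_irrefl _ h1
  · rintro g (⟨i, rfl⟩ | ⟨i, s, rfl⟩)
    · rw [co_zero hP.co i, L.zero]
      exact zero_lt_one
    · exact lt_of_le_of_ne (sb_le (him (i, s)) hP.le) (hne i s)

end mf

end GX
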