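import Pool.Agent.Lib.MP_f80667_ag.Sb.F
import Pool.Agent.Lib.MP_f80667_ag.Sb.H
import Pool.Agent.Lib.MP_f80667_ag.Sb.J

/-! The properties of the sum map; the forms. -/

open ZC BE PE CV IntermediateField MvPolynomial

namespace GX

section sml

variable {F : Type} [Field F] {N N' k k' : ℕ} {ι ι' : Type} {f : ι → MvPolynomial (Fin N) F}
  {A : Gv F N' k' ι'} {M : Mf f A k}
  {K Ω : Type} [Field K] [CharZero K] [Field Ω] [Algebra K Ω] [Algebra F K] [Algebra F Ω]
  [IsScalarTower F K Ω] [IsAlgClosure K Ω] {L : Ld K Ω}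

/-- **The properties of the sum map.** -/
theorem sml_of (hA : A.Ok) (hM : M.Ok) (hL : Lga L A) (hLm : Lmf L M) (h2 : 2 < L.p)
    (hrat : letI := A.G.grp Ω; ∀ z ∈ (Xf f).ratEq K Ω, M.S Ω z = 0) :
    letI := A.G.grp Ω; Sml f L M.om (M.S Ω) (Lv L A) := by
  let _ : AddCommGroup ((Xf A.a).pt Ω) := A.G.grp Ω
  change Sml f L M.om (M.S Ω) (Lv L A)
  refine ⟨lv_zero hA, fun a a' b b' h h' => lv_sub hA hL h h', fun a b b' h h' => lv_uniq h h',
    fun P P' x x' hx hx' h1 h3 h4 => mf_one hA hM hL hLm P P' x x' hx hx' h1 h3 h4,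
    fun P P' h => mf_two hA hM hL hLm P P' h, fun φ q hφ z b h => mf_frb hM φ q hφ z b h,
    hrat, fun a b h n hn h0 => ?_⟩
  obtain ⟨z, hz, -⟩ := h.nc
  exact tf_all hA hL h2 L.p_pos n hn a z hz h0

end sml

section frm

variable {F : Type} [Field F] {N N' k k' : ℕ} {ι ι' : Type} {f : ι → MvPolynomial (Fin N) F}
  {A : Gv F N' k' ι'} {M : Mf f A k} {E : Type} [Field E] [Algebra F E]

theorem om_map_c (j : Fin (k * N' * k')) (x : Fin N → E) :
    eval x ((M.om.map (algebraMap F E)).c j) = aeval x (M.om.c j) := by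
  change eval x (MvPolynomial.map (algebraMap F E) (M.om.c j)) = _
  rw [eval_map, aeval_def]

theorem om_map_v (j : Fin (k * N' * k')) (l : Fin N') (x t : Fin N → E) :
    (M.om.map (algebraMap F E)).v j l x t = ∑ n, aeval x (M.om.q j l n) * t n := by
  refine Finset.sum_congr rfl fun n _ => ?_
  change eval x (MvPolynomial.map (algebraMap F E) (M.om.q j l n)) * t n = _
  rw [eval_map, aeval_def]

/-- The forms `om` span the global forms. -/
theorem spf_of (h : M.Alb E) :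
    Spf (fun i => MvPolynomial.map (algebraMap F E) (f i)) (M.om.map (algebraMap F E)) := by
  intro ℓ hℓ
  obtain ⟨η, hη, hx⟩ := h ℓ hℓ
  refine ⟨η, fun x t ht j => ?_⟩
  rw [om_map_c, om_c_eq]
  simp only [om_map_v, om_q_eq]
  have e1 : ∑ l, η l * (M.pv (dec3 j).1 x (dec3 j).2.1 *
      (A.dm (dec3 j).2.2 (M.pv (dec3 j).1 x) (M.dv (dec3 j).1 x t) l - algebraMap F E (A.o l) *
        A.dm (dec3 j).2.2 (M.pv (dec3 j).1 x) (M.dv (dec3 j).1 x t) A.j₀)) =
      M.pv (dec3 j).1 x (dec3 j).2.1 * (∑ l, η l *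
        A.dm (dec3 j).2.2 (M.pv (dec3 j).1 x) (M.dv (dec3 j).1 x t) l -
        (∑ l, η l * algebraMap F E (A.o l)) *
          A.dm (dec3 j).2.2 (M.pv (dec3 j).1 x) (M.dv (dec3 j).1 x t) A.j₀) := by
    rw [Finset.sum_mul, ← Finset.sum_sub_distrib, Finset.mul_sum]
    exact Finset.sum_congr rfl fun l _ => by ring
  rw [e1, hη, zero_mul, sub_zero, mul_assoc]
  by_cases h0 : M.pv (dec3 j).1 x = 0
  · rw [h0, Pi.zero_apply, zero_mul, zero_mul]
  · rw [hx x t ht _ (dec3 j).2.2 h0]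

end frm

end GX
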