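import Pool.Agent.Lib.MP_f80667_ag.Sb.A

/-! Estimates for the values of polynomials with integral coefficients. -/

open ZC BE PE CV IntermediateField MvPolynomial

namespace GX

variable {F K Ω : Type} [Field F] [Field K] [Field Ω] [Algebra K Ω] [Algebra F Ω] {L : Ld K Ω}

/-- Induction for polynomials with integral coefficients. -/
theorem int_ind {σ : Type} (P : MvPolynomial σ F → Prop)
    (hC : ∀ c, L.nm (algebraMap F Ω c) ≤ 1 → P (C c)) (hX : ∀ i, P (X i))
    (hadd : ∀ p q, P p → P q → P (p + q)) (hmul : ∀ p q, P p → P q → P (p * q))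
    (G : MvPolynomial σ F) (hG : ∀ e, L.nm (algebraMap F Ω (G.coeff e)) ≤ 1) : P G := by
  classical
  have h1 : P 1 := by
    have h := hC 1 (by rw [map_one, L.one])
    rwa [map_one] at h
  have h0 : P 0 := by
    have h := hC 0 (by rw [map_zero, L.zero]; exact zero_le_one)
    rwa [map_zero] at h
  have hpow : ∀ (p : MvPolynomial σ F) (n : ℕ), P p → P (p ^ n) := by
    intro p n hp
    induction n with
    | zero => rwa [pow_zero]
    | succ n ih =>
      rw [pow_succ]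
      exact hmul _ _ ih hp
  rw [G.as_sum]
  refine Finset.sum_induction _ P (fun p q => hadd p q) h0 fun e _ => ?_
  rw [monomial_eq]
  refine hmul _ _ (hC _ (hG e)) ?_
  rw [Finsupp.prod]
  exact Finset.prod_induction _ P (fun p q => hmul p q) h1 fun i _ => hpow _ _ (hX i)

/-- The values are integral. -/
theorem sb_le {σ : Type} {G : MvPolynomial σ F}
    (hG : ∀ e, L.nm (algebraMap F Ω (G.coeff e)) ≤ 1) {x : σ → Ω} (hx : ∀ i, L.nm (x i) ≤ 1) :
    L.nm (aeval x G) ≤ 1 := by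
  refine int_ind (L := L) (fun G => L.nm (aeval x G) ≤ 1) (fun c hc => ?_) (fun i => ?_)
    (fun p q hp hq => ?_) (fun p q hp hq => ?_) G hG
  · rw [aeval_C]
    exact hc
  · rw [aeval_X]
    exact hx i
  · rw [map_add]
    exact (L.add _ _).trans (max_le hp hq)
  · rw [map_mul, L.mul]
    exact mul_le_one₀ hp (L.nonneg _) hq

/-- The values at congruent vectors are congruent. -/
theorem sb_close {σ : Type} {G : MvPolynomial σ F}
    (hG : ∀ e, L.nm (algebraMap F Ω (G.coeff e)) ≤ 1) {x y : σ → Ω} (hx : ∀ i, L.nm (x i) ≤ 1)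
    (hy : ∀ i, L.nm (y i) ≤ 1) {t : ℝ} (ht : 0 ≤ t) (h : ∀ i, L.nm (x i - y i) ≤ t) :
    L.nm (aeval x G - aeval y G) ≤ t := by
  have h1 := int_ind (L := L) (fun G : MvPolynomial σ F => L.nm (aeval x G) ≤ 1 ∧
    L.nm (aeval y G) ≤ 1 ∧ L.nm (aeval x G - aeval y G) ≤ t) (fun c hc => ?_) (fun i => ?_)
    (fun p q hp hq => ?_) (fun p q hp hq => ?_) G hG
  · exact h1.2.2
  · rw [aeval_C, aeval_C, sub_self, L.zero]
    exact ⟨hc, hc, ht⟩
  · rw [aeval_X, aeval_X]
    exact ⟨hx i, hy i, h i⟩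
  · rw [map_add, map_add]
    refine ⟨(L.add _ _).trans (max_le hp.1 hq.1), (L.add _ _).trans (max_le hp.2.1 hq.2.1), ?_⟩
    rw [add_sub_add_comm]
    exact (L.add _ _).trans (max_le hp.2.2 hq.2.2)
  · rw [map_mul, map_mul]
    refine ⟨?_, ?_, ?_⟩
    · rw [L.mul]
      exact mul_le_one₀ hp.1 (L.nonneg _) hq.1
    · rw [L.mul]
      exact mul_le_one₀ hp.2.1 (L.nonneg _) hq.2.1
    · have e : aeval x p * aeval x q - aeval y p * aeval y q =
          aeval x p * (aeval x q - aeval y q) + (aeval x p - aeval y p) * aeval y q := by ring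
      rw [e]
      refine (L.add _ _).trans (max_le ?_ ?_)
      · rw [L.mul]
        exact (mul_le_of_le_one_left (L.nonneg _) hp.1).trans hq.2.2
      · rw [L.mul]
        exact (mul_le_of_le_one_right (L.nonneg _) hq.2.1).trans hp.2.2

/-- Taylor's formula. -/
theorem sb_tay {σ : Type} [Fintype σ] {G : MvPolynomial σ F}
    (hG : ∀ e, L.nm (algebraMap F Ω (G.coeff e)) ≤ 1) {x y : σ → Ω} (hx : ∀ i, L.nm (x i) ≤ 1)
    (hy : ∀ i, L.nm (y i) ≤ 1) {t : ℝ} (ht : 0 ≤ t) (h : ∀ i, L.nm (x i - y i) ≤ t) :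
    L.nm (aeval x G - aeval y G - ∑ i, aeval y (pderiv i G) * (x i - y i)) ≤ t * t := by
  classical
  have ht2 : 0 ≤ t * t := mul_nonneg ht ht
  have h1 := int_ind (L := L) (fun G : MvPolynomial σ F => L.nm (aeval x G) ≤ 1 ∧
    L.nm (aeval y G) ≤ 1 ∧ L.nm (aeval x G - aeval y G) ≤ t ∧
      L.nm (aeval x G - aeval y G - ∑ i, aeval y (pderiv i G) * (x i - y i)) ≤ t * t)
    (fun c hc => ?_) (fun i => ?_) (fun p q hp hq => ?_) (fun p q hp hq => ?_) G hG
  · exact h1.2.2.2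
  · have e : ∑ i, aeval y (pderiv i (C c : MvPolynomial σ F)) * (x i - y i) = 0 :=
      Finset.sum_eq_zero fun i _ => by rw [pderiv_C, map_zero, zero_mul]
    rw [e, aeval_C, aeval_C, sub_self, sub_zero, L.zero]
    exact ⟨hc, hc, ht, ht2⟩
  · have e : ∑ j, aeval y (pderiv j (X i : MvPolynomial σ F)) * (x j - y j) = x i - y i := by
      rw [Finset.sum_eq_single i]
      · rw [pderiv_X_self, map_one, one_mul]
      · intro j _ hj
        rw [pderiv_X_of_ne hj.symm, map_zero, zero_mul]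
      · exact fun hi => absurd (Finset.mem_univ i) hi
    rw [e, aeval_X, aeval_X, sub_self, L.zero]
    exact ⟨hx i, hy i, h i, ht2⟩
  · have e : ∑ i, aeval y (pderiv i (p + q)) * (x i - y i) =
        ∑ i, aeval y (pderiv i p) * (x i - y i) + ∑ i, aeval y (pderiv i q) * (x i - y i) := by
      rw [← Finset.sum_add_distrib]
      exact Finset.sum_congr rfl fun i _ => by rw [map_add, map_add, add_mul]
    rw [e, map_add, map_add]
    refine ⟨(L.add _ _).trans (max_le hp.1 hq.1), (L.add _ _).trans (max_le hp.2.1 hq.2.1),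
      ?_, ?_⟩
    · rw [add_sub_add_comm]
      exact (L.add _ _).trans (max_le hp.2.2.1 hq.2.2.1)
    · rw [add_sub_add_comm, add_sub_add_comm]
      exact (L.add _ _).trans (max_le hp.2.2.2 hq.2.2.2)
  · have e : ∑ i, aeval y (pderiv i (p * q)) * (x i - y i) =
        (∑ i, aeval y (pderiv i p) * (x i - y i)) * aeval y q +
          aeval y p * ∑ i, aeval y (pderiv i q) * (x i - y i) := by
      rw [Finset.sum_mul, Finset.mul_sum, ← Finset.sum_add_distrib]
      refine Finset.sum_congr rfl fun i _ => ?_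
      rw [pderiv_mul, map_add, map_mul, map_mul]
      ring
    rw [e, map_mul, map_mul]
    refine ⟨?_, ?_, ?_, ?_⟩
    · rw [L.mul]
      exact mul_le_one₀ hp.1 (L.nonneg _) hq.1
    · rw [L.mul]
      exact mul_le_one₀ hp.2.1 (L.nonneg _) hq.2.1
    · have e : aeval x p * aeval x q - aeval y p * aeval y q =
          aeval x p * (aeval x q - aeval y q) + (aeval x p - aeval y p) * aeval y q := by ring
      rw [e]
      refine (L.add _ _).trans (max_le ?_ ?_)
      · rw [L.mul]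
        exact (mul_le_of_le_one_left (L.nonneg _) hp.1).trans hq.2.2.1
      · rw [L.mul]
        exact (mul_le_of_le_one_right (L.nonneg _) hq.2.1).trans hp.2.2.1
    · generalize (∑ i, aeval y (pderiv i p) * (x i - y i)) = D at hp ⊢
      generalize (∑ i, aeval y (pderiv i q) * (x i - y i)) = D' at hq ⊢
      have e : aeval x p * aeval x q - aeval y p * aeval y q -
          (D * aeval y q + aeval y p * D') =
          (aeval x p - aeval y p) * (aeval x q - aeval y q) +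
            (aeval y p * (aeval x q - aeval y q - D') +
              aeval y q * (aeval x p - aeval y p - D)) := by ring
      rw [e]
      refine (L.add _ _).trans (max_le ?_ ((L.add _ _).trans (max_le ?_ ?_)))
      · rw [L.mul]
        exact mul_le_mul hp.2.2.1 hq.2.2.1 (L.nonneg _) ht
      · rw [L.mul]
        exact (mul_le_of_le_one_left (L.nonneg _) hp.2.1).trans hq.2.2.2
      · rw [L.mul]
        exact (mul_le_of_le_one_left (L.nonneg _) hq.2.1).trans hp.2.2.2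

/-- The second difference. -/
theorem sb_dd {σ τ : Type} {G : MvPolynomial (σ ⊕ τ) F}
    (hG : ∀ e, L.nm (algebraMap F Ω (G.coeff e)) ≤ 1) {x x₀ : σ → Ω} {y y₀ : τ → Ω}
    (hx : ∀ i, L.nm (x i) ≤ 1) (hx₀ : ∀ i, L.nm (x₀ i) ≤ 1) (hy : ∀ i, L.nm (y i) ≤ 1)
    (hy₀ : ∀ i, L.nm (y₀ i) ≤ 1) {s t : ℝ} (hs : 0 ≤ s) (ht : 0 ≤ t)
    (h : ∀ i, L.nm (x i - x₀ i) ≤ s) (h' : ∀ i, L.nm (y i - y₀ i) ≤ t) :
    L.nm (aeval (Sum.elim x y) G - aeval (Sum.elim x y₀) G - aeval (Sum.elim x₀ y) G +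
      aeval (Sum.elim x₀ y₀) G) ≤ s * t := by
  have hst : 0 ≤ s * t := mul_nonneg hs ht
  have h1 := int_ind (L := L) (fun G : MvPolynomial (σ ⊕ τ) F =>
    (L.nm (aeval (Sum.elim x y) G) ≤ 1 ∧ L.nm (aeval (Sum.elim x₀ y) G) ≤ 1 ∧
      L.nm (aeval (Sum.elim x y₀) G) ≤ 1 ∧ L.nm (aeval (Sum.elim x₀ y₀) G) ≤ 1) ∧
    (L.nm (aeval (Sum.elim x y) G - aeval (Sum.elim x y₀) G) ≤ t ∧
      L.nm (aeval (Sum.elim x₀ y) G - aeval (Sum.elim x₀ y₀) G) ≤ t) ∧
    L.nm (aeval (Sum.elim x y₀) G - aeval (Sum.elim x₀ y₀) G) ≤ s ∧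
    L.nm (aeval (Sum.elim x y) G - aeval (Sum.elim x y₀) G - aeval (Sum.elim x₀ y) G +
      aeval (Sum.elim x₀ y₀) G) ≤ s * t)
    (fun c hc => ?_) (fun i => ?_) (fun p q hp hq => ?_) (fun p q hp hq => ?_) G hG
  · exact h1.2.2.2
  · simp only [aeval_C, sub_self, zero_sub, neg_add_cancel, L.zero]
    exact ⟨⟨hc, hc, hc, hc⟩, ⟨ht, ht⟩, hs, hst⟩
  · rcases i with i | i
    · simp only [aeval_X, Sum.elim_inl, sub_self, zero_sub, neg_add_cancel, L.zero]
      exact ⟨⟨hx i, hx₀ i, hx i, hx₀ i⟩, ⟨ht, ht⟩, h i, hst⟩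
    · simp only [aeval_X, Sum.elim_inr, sub_self, L.zero]
      refine ⟨⟨hy i, hy i, hy₀ i, hy₀ i⟩, ⟨h' i, h' i⟩, hs, ?_⟩
      have e : y i - y₀ i - y i + y₀ i = 0 := by ring
      rw [e, L.zero]
      exact hst
  · simp only [map_add]
    refine ⟨⟨(L.add _ _).trans (max_le hp.1.1 hq.1.1),
      (L.add _ _).trans (max_le hp.1.2.1 hq.1.2.1), (L.add _ _).trans (max_le hp.1.2.2.1 hq.1.2.2.1),
      (L.add _ _).trans (max_le hp.1.2.2.2 hq.1.2.2.2)⟩, ⟨?_, ?_⟩, ?_, ?_⟩
    · rw [add_sub_add_comm]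
      exact (L.add _ _).trans (max_le hp.2.1.1 hq.2.1.1)
    · rw [add_sub_add_comm]
      exact (L.add _ _).trans (max_le hp.2.1.2 hq.2.1.2)
    · rw [add_sub_add_comm]
      exact (L.add _ _).trans (max_le hp.2.2.1 hq.2.2.1)
    · have e : ∀ a b c d a' b' c' d' : Ω, (a + a') - (b + b') - (c + c') + (d + d') =
          (a - b - c + d) + (a' - b' - c' + d') := fun a b c d a' b' c' d' => by ring
      rw [e]
      exact (L.add _ _).trans (max_le hp.2.2.2 hq.2.2.2)
  · simp only [map_mul]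
    generalize aeval (Sum.elim x y) p = a at hp ⊢
    generalize aeval (Sum.elim x y₀) p = b at hp ⊢
    generalize aeval (Sum.elim x₀ y) p = c at hp ⊢
    generalize aeval (Sum.elim x₀ y₀) p = d at hp ⊢
    generalize aeval (Sum.elim x y) q = a' at hq ⊢
    generalize aeval (Sum.elim x y₀) q = b' at hq ⊢
    generalize aeval (Sum.elim x₀ y) q = c' at hq ⊢
    generalize aeval (Sum.elim x₀ y₀) q = d' at hq ⊢
    obtain ⟨⟨p1, p2, p3, p4⟩, ⟨p5, p6⟩, p7, p8⟩ := hp
    obtain ⟨⟨q1, q2, q3, q4⟩, ⟨q5, q6⟩, q7, q8⟩ := hq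
    have hm : ∀ u v : Ω, L.nm u ≤ 1 → L.nm v ≤ 1 → L.nm (u * v) ≤ 1 := fun u v hu hv => by
      rw [L.mul]
      exact mul_le_one₀ hu (L.nonneg _) hv
    have hd : ∀ (u v u' v' : Ω) (r : ℝ), L.nm u ≤ 1 → L.nm v' ≤ 1 → L.nm (u - u') ≤ r →
        L.nm (v - v') ≤ r → L.nm (u * v - u' * v') ≤ r := fun u v u' v' r hu hv h1 h2 => by
      have e : u * v - u' * v' = u * (v - v') + (u - u') * v' := by ring
      rw [e]
      refine (L.add _ _).trans (max_le ?_ ?_)
      · rw [L.mul]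
        exact (mul_le_of_le_one_left (L.nonneg _) hu).trans h2
      · rw [L.mul]
        exact (mul_le_of_le_one_right (L.nonneg _) hv).trans h1
    refine ⟨⟨hm _ _ p1 q1, hm _ _ p2 q2, hm _ _ p3 q3, hm _ _ p4 q4⟩,
      ⟨hd _ _ _ _ _ p1 q3 p5 q5, hd _ _ _ _ _ p2 q4 p6 q6⟩, hd _ _ _ _ _ p3 q4 p7 q7, ?_⟩
    have e : a * a' - b * b' - c * c' + d * d' =
        a * (a' - b' - c' + d') + ((a - b) * (b' - d') +
          ((a - b - c + d) * c' + (b - d) * (c' - d'))) := by ring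
    rw [e]
    refine (L.add _ _).trans (max_le ?_ ((L.add _ _).trans (max_le ?_
      ((L.add _ _).trans (max_le ?_ ?_)))))
    · rw [L.mul]
      exact (mul_le_of_le_one_left (L.nonneg _) p1).trans q8
    · rw [L.mul, mul_comm]
      exact mul_le_mul q7 p5 (L.nonneg _) hs
    · rw [L.mul]
      exact (mul_le_of_le_one_right (L.nonneg _) q2).trans p8
    · rw [L.mul]
      exact mul_le_mul p7 q6 (L.nonneg _) hs

end GX
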