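import Pool.Agent.Lib.MP_f80667_ag.Sb.C

/-! The filtration of the group of points: differences. -/

open ZC BE PE CV IntermediateField

namespace GX

section co

variable {F : Type} [Field F] {N : ℕ} {ι : Type} {f : ι → MvPolynomial (Fin N) F}

theorem co_map {E E' : Type} [Field E] [Field E'] [Algebra F E] [Algebra F E'] (σ : E →ₐ[F] E')
    {P : (Xf f).pt E} {x : Fin N → E} (h : Co P x) :
    Co ((Xf f).map σ P) fun i => σ (x i) := by
  obtain ⟨Q, rfl, rfl⟩ := h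
  exact ⟨Q.mp σ, rfl, rfl⟩

variable {K Ω : Type} [Field K] [Field Ω] [Algebra K Ω] [Algebra F Ω] {L : Ld K Ω}

end co

section gv

variable {F : Type} [Field F] {N' k' : ℕ} {ι' : Type} {A : Gv F N' k' ι'}

theorem gr_zero (G : AV.Gr (Xf A.a)) {E E' : Type} [Field E] [Field E'] [Algebra F E]
    [Algebra F E'] (σ : E →ₐ[F] E') : (Xf A.a).map σ (G.grp E).zero = (G.grp E').zero := by
  let _ := G.grp E
  let _ := G.grp E'
  have h : ∀ x y : (Xf A.a).pt E, (Xf A.a).map σ (x + y) = (Xf A.a).map σ x + (Xf A.a).map σ y :=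
    G.map_add E E' σ
  have h1 := h 0 0
  rw [add_zero] at h1
  exact (left_eq_add.1 h1)

/-- Coordinates of the point `0`. -/
theorem Gv.Ok.co_zero (hA : A.Ok) (E : Type) [Field E] [Algebra F E] :
    Co (A.G.grp E).zero fun j => algebraMap F E (A.o j) := by
  have h := co_map (Algebra.ofId F E) hA.oc
  rw [gr_zero A.G] at h
  exact h

/-- The value of `m i` at coordinates `x`, `x'` of two points is a multiple of normalized coordinates of the difference. -/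
theorem Gv.Ok.mv_eq (hA : A.Ok) {E : Type} [Field E] [Algebra F E] {P Q R : (Xf A.a).pt E}
    {x x' z : Fin N' → E} {i : Fin k'} (hx : Co P x) (hx' : Co Q x')
    (h : (A.G.grp E).add R Q = P) (h0 : A.mv i x x' ≠ 0) (hz : Co R z) (hz1 : z A.j₀ = 1)
    (j : Fin N') : A.mv i x x' j = A.mv i x x' A.j₀ * z j := by
  obtain ⟨c, -, hc⟩ := co_rel hz (hA.sub E P Q R x x' i hx hx' h h0)
  rw [hc A.j₀, hz1, mul_one]
  exact hc j

end gv

section lg

variable {F : Type} [Field F] {N' k' : ℕ} {ι' : Type} {A : Gv F N' k' ι'}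
  {K Ω : Type} [Field K] [Field Ω] [Algebra K Ω] [Algebra F Ω] {L : Ld K Ω}

theorem nm_close {x y : Ω} (hx : L.nm x = 1) (h : L.nm (y - x) < 1) : L.nm y = 1 := by
  have h1 : L.nm (y - x) < L.nm x := by rwa [hx]
  rw [L.eq_of_close h1, hx]

/-- The point `0`. -/
theorem nc_zero (hA : A.Ok) {t : ℝ} (ht : 0 ≤ t) :
    Nc L A t (A.G.grp Ω).zero fun j => algebraMap F Ω (A.o j) := by
  refine ⟨hA.co_zero Ω, ?_, fun j => ?_⟩
  · change algebraMap F Ω (A.o A.j₀) = 1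
    rw [hA.o1, map_one]
  · rw [sub_self, L.zero]
    exact ht

theorem Nc.mono {t t' : ℝ} (h : t ≤ t') {R : (Xf A.a).pt Ω} {z : Fin N' → Ω}
    (hz : Nc L A t R z) : Nc L A t' R z := ⟨hz.1, hz.2.1, fun j => (hz.2.2 j).trans h⟩

theorem Nc.int (hL : Lga L A) {t : ℝ} (ht : t ≤ 1) {R : (Xf A.a).pt Ω} {z : Fin N' → Ω}
    (hz : Nc L A t R z) (j : Fin N') : L.nm (z j) ≤ 1 := by
  have e : z j = (z j - algebraMap F Ω (A.o j)) + algebraMap F Ω (A.o j) := by ring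
  rw [e]
  exact (L.add _ _).trans (max_le ((hz.2.2 j).trans ht) (hL.io j))

/-- The normalized coordinates are unique. -/
theorem Nc.uniq {t t' : ℝ} {R : (Xf A.a).pt Ω} {z z' : Fin N' → Ω}
    (hz : Nc L A t R z) (hz' : Nc L A t' R z') : z = z' :=
  co_one hz.1 hz'.1 hz.2.1 hz'.2.1

/-- For a suitable `i` the vector `m i` computes all differences of points congruent to `0`. -/
theorem exists_mv (hA : A.Ok) (hL : Lga L A) {t : ℝ} (ht1 : t < 1) (ht : 0 ≤ t) :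
    ∃ i : Fin k', L.nm (A.mv i (fun j => algebraMap F Ω (A.o j))
      (fun j => algebraMap F Ω (A.o j)) A.j₀) = 1 ∧
      ∀ (R R' : (Xf A.a).pt Ω) (z z' : Fin N' → Ω), Nc L A t R z → Nc L A t R' z' →
        (∀ j, L.nm (A.mv i z z' j - A.mv i (fun j => algebraMap F Ω (A.o j))
          (fun j => algebraMap F Ω (A.o j)) j) ≤ t) ∧ L.nm (A.mv i z z' A.j₀) = 1 ∧
        ∀ R'' : (Xf A.a).pt Ω, (A.G.grp Ω).add R'' R' = R → Co R'' (A.mv i z z') := by
  let _ : AddCommGroup ((Xf A.a).pt Ω) := A.G.grp Ω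
  set o : Fin N' → Ω := fun j => algebraMap F Ω (A.o j) with ho
  have hzo : Nc L A t (0 : (Xf A.a).pt Ω) o := nc_zero hA ht
  have hio : ∀ j, L.nm (o j) ≤ 1 := hL.io
  have hPo : Pco L A.a (0 : (Xf A.a).pt Ω) o :=
    ⟨hzo.1, hio, ⟨A.j₀, by rw [hzo.2.1, L.one]⟩⟩
  obtain ⟨i, j₁, hj₁⟩ := hL.um _ _ _ _ hPo hPo
  have hcl : ∀ (R R' : (Xf A.a).pt Ω) (z z' : Fin N' → Ω), Nc L A t R z → Nc L A t R' z' →
      ∀ j, L.nm (A.mv i z z' j - A.mv i o o j) ≤ t := by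
    intro R R' z z' hz hz' j
    refine sb_close (hL.im i j) (fun s => ?_) (fun s => ?_) ht fun s => ?_
    · rcases s with s | s
      · exact hz.int hL ht1.le s
      · exact hz'.int hL ht1.le s
    · rcases s with s | s
      · exact hio s
      · exact hio s
    · rcases s with s | s
      · exact hz.2.2 s
      · exact hz'.2.2 s
  have hne : ∀ (R R' : (Xf A.a).pt Ω) (z z' : Fin N' → Ω), Nc L A t R z → Nc L A t R' z' →
      A.mv i z z' ≠ 0 := by
    intro R R' z z' hz hz' h0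
    have h1 := nm_close hj₁ ((hcl R R' z z' hz hz' j₁).trans_lt ht1)
    rw [h0, Pi.zero_apply, L.zero] at h1
    exact zero_ne_one h1
  have e1 := hA.mv_eq (R := (0 : (Xf A.a).pt Ω)) hzo.1 hzo.1 (zero_add _)
    (hne _ _ _ _ hzo hzo) hzo.1 hzo.2.1 j₁
  have hμ : L.nm (A.mv i o o A.j₀) = 1 := by
    have h1 : L.nm (A.mv i o o A.j₀) ≤ 1 := sb_le (hL.im i A.j₀) fun s => by
      rcases s with s | s
      · exact hio s
      · exact hio s
    refine le_antisymm h1 ?_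
    rw [e1, L.mul] at hj₁
    rw [← hj₁]
    exact mul_le_of_le_one_right (L.nonneg _) (hio j₁)
  refine ⟨i, hμ, fun R R' z z' hz hz' => ⟨hcl R R' z z' hz hz', ?_, fun R'' h => ?_⟩⟩
  · exact nm_close hμ ((hcl R R' z z' hz hz' A.j₀).trans_lt ht1)
  · exact hA.sub Ω R R' R'' z z' i hz.1 hz'.1 h (hne R R' z z' hz hz')

/-- **The coordinates of a difference** up to numbers of norm `≤ t ^ 2`. -/
theorem nc_sub (hA : A.Ok) (hL : Lga L A) {t : ℝ} (ht1 : t < 1) (ht : 0 ≤ t)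
    {R R' R'' : (Xf A.a).pt Ω} {z z' : Fin N' → Ω} (hz : Nc L A t R z) (hz' : Nc L A t R' z')
    (hR : (A.G.grp Ω).add R'' R' = R) :
    ∃ z'' : Fin N' → Ω, Nc L A t R'' z'' ∧
      ∀ j, L.nm (z'' j - algebraMap F Ω (A.o j) - (z j - z' j)) ≤ t * t := by
  obtain ⟨i, hμ₀, hi⟩ := exists_mv hA hL ht1 ht (A := A) (L := L)
  let _ : AddCommGroup ((Xf A.a).pt Ω) := A.G.grp Ω
  set o : Fin N' → Ω := fun j => algebraMap F Ω (A.o j) with ho
  have hzo : Nc L A t (0 : (Xf A.a).pt Ω) o := nc_zero hA ht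
  have hio : ∀ j, L.nm (o j) ≤ 1 := hL.io
  have hiz := hz.int hL ht1.le
  have hiz' := hz'.int hL ht1.le
  obtain ⟨a1, -, a3⟩ := hi _ _ _ _ hz hzo
  obtain ⟨b1, -, b3⟩ := hi _ _ _ _ hz' hzo
  obtain ⟨c1, -, c3⟩ := hi _ _ _ _ hz' hz'
  obtain ⟨d1, d2, d3⟩ := hi _ _ _ _ hz hz'
  have hne : ∀ y y' : Fin N' → Ω, (∀ j, L.nm (A.mv i y y' j - A.mv i o o j) ≤ t) →
      A.mv i y y' ≠ 0 := by
    intro y y' h h0
    have h1 := nm_close hμ₀ ((h A.j₀).trans_lt ht1)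
    rw [h0, Pi.zero_apply, L.zero] at h1
    exact zero_ne_one h1
  have e2 := fun j => hA.mv_eq (R := R) hz.1 hzo.1 (add_zero _) (hne _ _ a1) hz.1 hz.2.1 j
  have e3 := fun j => hA.mv_eq (R := R') hz'.1 hzo.1 (add_zero _) (hne _ _ b1) hz'.1 hz'.2.1 j
  have e4 := fun j => hA.mv_eq (R := (0 : (Xf A.a).pt Ω)) hz'.1 hz'.1 (zero_add _)
    (hne _ _ c1) hzo.1 hzo.2.1 j
  have hcw : Co R'' (A.mv i z z') := d3 R'' hR
  set w : Fin N' → Ω := A.mv i z z' with hw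
  set μ₀ : Ω := A.mv i o o A.j₀ with hμ₀d
  set lam : Ω := A.mv i z o A.j₀ with hlam
  set lam' : Ω := A.mv i z' o A.j₀ with hlam'
  set μ : Ω := A.mv i z' z' A.j₀ with hμ
  have k1 : L.nm (lam - μ₀) ≤ t := a1 A.j₀
  have k2 : L.nm (lam' - μ₀) ≤ t := b1 A.j₀
  have k4 : L.nm (w A.j₀ - μ₀) ≤ t := d1 A.j₀
  have hν0 : w A.j₀ ≠ 0 := L.ne_zero (by rw [d2]; exact zero_lt_one)
  have hdd : ∀ j, L.nm (w j - lam * z j - μ * o j + lam' * z' j) ≤ t * t := by
    intro j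
    have h1 := sb_dd (L := L) (hL.im i j) hiz hiz' hiz' hio ht ht (s := t) (t := t)
      (x := z) (x₀ := z') (y := z') (y₀ := o) (fun j => by
        have e : z j - z' j = (z j - o j) - (z' j - o j) := by ring
        rw [e]
        exact (L.sub _ _).trans (max_le (hz.2.2 j) (hz'.2.2 j))) hz'.2.2
    have h2 : w j - lam * z j - μ * o j + lam' * z' j =
        w j - A.mv i z o j - A.mv i z' z' j + A.mv i z' o j := by
      rw [e2 j, e3 j, e4 j]
    rw [h2]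
    exact h1
  have hm : ∀ a x : Ω, L.nm a ≤ 1 → L.nm x ≤ t * t → L.nm (a * x) ≤ t * t := by
    intro a x ha hx
    rw [L.mul]
    exact (mul_le_of_le_one_left (L.nonneg _) ha).trans hx
  have hmm : ∀ a x : Ω, L.nm a ≤ t → L.nm x ≤ t → L.nm (a * x) ≤ t * t := by
    intro a x ha hx
    rw [L.mul]
    exact mul_le_mul ha hx (L.nonneg _) ht
  have key : ∀ j, L.nm (w j - w A.j₀ * o j - w A.j₀ * (z j - z' j)) ≤ t * t := by
    intro j
    have e : w j - w A.j₀ * o j - w A.j₀ * (z j - z' j) =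
        (w j - lam * z j - μ * o j + lam' * z' j) -
          o j * (w A.j₀ - lam * z A.j₀ - μ * o A.j₀ + lam' * z' A.j₀) +
          (((lam - μ₀) - (w A.j₀ - μ₀)) * (z j - o j) -
          ((lam' - μ₀) - (w A.j₀ - μ₀)) * (z' j - o j)) := by
      rw [hz.2.1, hz'.2.1, hzo.2.1]
      ring
    rw [e]
    refine (L.add _ _).trans (max_le ((L.sub _ _).trans (max_le (hdd j) (hm _ _ (hio j)
      (hdd A.j₀)))) ((L.sub _ _).trans (max_le ?_ ?_)))
    · exact hmm _ _ ((L.sub _ _).trans (max_le k1 k4)) (hz.2.2 j)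
    · exact hmm _ _ ((L.sub _ _).trans (max_le k2 k4)) (hz'.2.2 j)
  have key2 : ∀ j, L.nm ((w A.j₀)⁻¹ * w j - o j - (z j - z' j)) ≤ t * t := by
    intro j
    have e : (w A.j₀)⁻¹ * w j - o j - (z j - z' j) =
        (w A.j₀)⁻¹ * (w j - w A.j₀ * o j - w A.j₀ * (z j - z' j)) := by
      field_simp
    rw [e, L.mul, L.inv, d2, inv_one, one_mul]
    exact key j
  refine ⟨fun j => (w A.j₀)⁻¹ * w j, ⟨co_smul hA.hm hcw (inv_ne_zero hν0),
    inv_mul_cancel₀ hν0, fun j => ?_⟩, key2⟩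
  have e : (w A.j₀)⁻¹ * w j - algebraMap F Ω (A.o j) =
      ((w A.j₀)⁻¹ * w j - o j - (z j - z' j)) + ((z j - o j) - (z' j - o j)) := by
    change (w A.j₀)⁻¹ * w j - o j = _
    ring
  rw [e]
  refine (L.add _ _).trans (max_le ((key2 j).trans ?_) ((L.sub _ _).trans
    (max_le (hz.2.2 j) (hz'.2.2 j))))
  exact mul_le_of_le_one_left ht ht1.le

end lg

end GX
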