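import Pool.Agent.Lib.MP_f80667_ag.Sb.E
import Pool.Agent.Lib.MP_f80667_ag.St.A

/-! The sum map on displacements; the Frobenius automorphism. -/

open ZC BE PE CV IntermediateField MvPolynomial

namespace GX

section nat

variable {F : Type} [Field F] {N N' k k' : ℕ} {ι ι' : Type} {f : ι → MvPolynomial (Fin N) F}
  {A : Gv F N' k' ι'} {M : Mf f A k}

/-- The map of points is natural. -/
theorem mf_nat (hM : M.Ok) {E E' : Type} [Field E] [Field E'] [Algebra F E] [Algebra F E']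
    (σ : E →ₐ[F] E') (P : (Xf f).pt E) :
    M.φ E' ((Xf f).map σ P) = (Xf A.a).map σ (M.φ E P) := by
  obtain ⟨x, hx⟩ := exists_co P
  obtain ⟨i, hi⟩ := hM.ne E P x hx
  have h1 : M.pv i (fun s => σ (x s)) = fun s => σ (M.pv i x s) := by
    funext s
    change aeval (fun s => σ (x s)) (M.Φ i s) = σ (aeval x (M.Φ i s))
    rw [← AlgHom.comp_apply, MvPolynomial.comp_aeval]
  have h2 : M.pv i (fun s => σ (x s)) ≠ 0 := by
    rw [h1]
    intro h0
    apply hi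
    funext s
    exact (map_eq_zero σ).1 (congrFun h0 s)
  have h3 := hM.co E' _ _ i (co_map σ hx) h2
  rw [h1] at h3
  exact co_eq h3 (co_map σ (hM.co E P x i hx hi))

variable {Ω : Type} [Field Ω] [Algebra F Ω]

/-- The sum map on a difference. -/
theorem mfS_dif (P P' : (Xf f).pt Ω) :
    letI := A.G.grp Ω
    M.S Ω (Finsupp.single P' 1 - Finsupp.single P 1) = M.φ Ω P' - M.φ Ω P := by
  let _ : AddCommGroup ((Xf A.a).pt Ω) := A.G.grp Ω
  change M.S Ω (Finsupp.single P' 1 - Finsupp.single P 1) = M.φ Ω P' - M.φ Ω P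
  have h : ∀ Q : (Xf f).pt Ω, M.S Ω (Finsupp.single Q 1) = M.φ Ω Q := by
    intro Q
    change A.G.sum Ω (Finsupp.mapDomain (M.φ Ω) (Finsupp.single Q 1)) = _
    rw [Finsupp.mapDomain_single]
    exact (AV.sum_single A.G _ _).trans (one_zsmul _)
  rw [map_sub, h, h]

end nat

section one

variable {F : Type} [Field F] {N N' k k' : ℕ} {ι ι' : Type} {f : ι → MvPolynomial (Fin N) F}
  {A : Gv F N' k' ι'} {M : Mf f A k}
  {K Ω : Type} [Field K] [CharZero K] [Field Ω] [Algebra K Ω] [Algebra F K] [Algebra F Ω]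
  [IsScalarTower F K Ω] {L : Ld K Ω}

/-- Displacements of level `1`. -/
theorem mf_one (hA : A.Ok) (hM : M.Ok) (hL : Lga L A) (hLm : Lmf L M) (P P' : (Xf f).pt Ω)
    (x x' : Fin N → Ω) (hx : Co P x) (hx' : Co P' x') (h1 : ∀ i, L.nm (x i) ≤ 1)
    (h2 : ∃ i, L.nm (x i) = 1) (h3 : ∀ i, L.nm (x' i - x i) ≤ L.nm (L.p : Ω)) :
    letI := A.G.grp Ω
    ∃ b, M.om.Vl L x x' b ∧
      Lv L A (M.S Ω (Finsupp.single P' 1 - Finsupp.single P 1)) b := by
  let _ : AddCommGroup ((Xf A.a).pt Ω) := A.G.grp Ω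
  change ∃ b, M.om.Vl L x x' b ∧ Lv L A (M.S Ω (Finsupp.single P' 1 - Finsupp.single P 1)) b
  have hPx : Pco L f P x := ⟨hx, h1, h2⟩
  obtain ⟨j, hj⟩ := exists_part hA hM hL hLm hPx
  obtain ⟨z, hz, hzl⟩ := mf_sub hA hM hL hLm L.lt (L.nonneg _) hPx hx' h3 hj
    (R := M.φ Ω P' - M.φ Ω P) (sub_add_cancel _ _)
  have hp := sbe_p L
  have hc0 : aeval x (M.om.c j) ≠ 0 := L.ne_zero (by rw [hj]; exact zero_lt_one)
  have hzi : ∀ l, L.nm ((z l - algebraMap F Ω (A.o l)) / (L.p : Ω)) ≤ 1 := by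
    intro l
    rw [L.div, div_le_one L.p_pos]
    exact hz.2.2 l
  choose b hb using fun l => L.hv_of (hzi l)
  refine ⟨b, ⟨j, hj, fun l => ?_⟩, ?_⟩
  · have e : (∑ n, aeval x (M.om.q j l n) * (x' n - x n)) /
        ((L.p : Ω) * aeval x (M.om.c j)) = (z l - algebraMap F Ω (A.o l)) / (L.p : Ω) -
        ((aeval x (M.om.c j) * (z l - algebraMap F Ω (A.o l)) -
          ∑ n, aeval x (M.om.q j l n) * (x' n - x n)) / aeval x (M.om.c j)) / (L.p : Ω) := by
      field_simp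
      ring
    rw [e]
    have h4 := (hb l).sub (sbe_hv (L := L) (e := (aeval x (M.om.c j) *
      (z l - algebraMap F Ω (A.o l)) - ∑ n, aeval x (M.om.q j l n) * (x' n - x n)) /
        aeval x (M.om.c j)) (by
          rw [L.div, hj, div_one]
          exact hzl l))
    rwa [sub_zero] at h4
  · rw [mfS_dif]
    exact ⟨z, hz.1, hz.2.1, hb⟩

/-- Displacements of level `2`. -/
theorem mf_two (hA : A.Ok) (hM : M.Ok) (hL : Lga L A) (hLm : Lmf L M) (P P' : (Xf f).pt Ω)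
    (h : Nrh f L (L.nm (L.p : Ω) ^ 2) P' P) :
    letI := A.G.grp Ω
    Lv L A (M.S Ω (Finsupp.single P' 1 - Finsupp.single P 1)) 0 := by
  let _ : AddCommGroup ((Xf A.a).pt Ω) := A.G.grp Ω
  change Lv L A (M.S Ω (Finsupp.single P' 1 - Finsupp.single P 1)) 0
  obtain ⟨x', x, hx', hx, hi', hi, h1', h1, hd⟩ := h
  have hPx : Pco L f P x := ⟨hx, hi, h1⟩
  obtain ⟨j, hj⟩ := exists_part hA hM hL hLm hPx
  have h2 : L.nm (L.p : Ω) ^ 2 < 1 := pow_lt_one₀ (L.nonneg _) L.lt two_ne_zero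
  obtain ⟨z, hz, -⟩ := mf_sub hA hM hL hLm h2 (pow_nonneg (L.nonneg _) 2) hPx hx' hd hj
    (R := M.φ Ω P' - M.φ Ω P) (sub_add_cancel _ _)
  rw [mfS_dif]
  refine ⟨z, hz.1, hz.2.1, fun l => sbe_hv ?_⟩
  rw [← pow_two]
  exact hz.2.2 l

variable [IsAlgClosure K Ω]

/-- The Frobenius automorphism. -/
theorem mf_frb (hM : M.Ok) (φ : Ω ≃ₐ[K] Ω) (q : ℕ) (hφ : Frob L.toLf ⊥ φ q)
    (z : (Xf f).pt Ω →₀ ℤ) (b : Fin N' → L.κ)
    (h : letI := A.G.grp Ω; Lv L A (M.S Ω z) b) :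
    letI := A.G.grp Ω
    Lv L A (M.S Ω (Finsupp.mapDomain ((Xf f).act φ) z)) fun l => b l ^ q := by
  let _ : AddCommGroup ((Xf A.a).pt Ω) := A.G.grp Ω
  change Lv L A (M.S Ω (Finsupp.mapDomain ((Xf f).act φ) z)) fun l => b l ^ q
  have e : M.S Ω (Finsupp.mapDomain ((Xf f).act φ) z) = (Xf A.a).act φ (M.S Ω z) := by
    have h1 : Finsupp.mapDomain (M.φ Ω) (Finsupp.mapDomain ((Xf f).act φ) z) =
        Finsupp.mapDomain ((Xf A.a).act φ) (Finsupp.mapDomain (M.φ Ω) z) := by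
      rw [← Finsupp.mapDomain_comp, ← Finsupp.mapDomain_comp]
      congr 1
      funext P
      exact mf_nat hM (φ.restrictScalars F : Ω →ₐ[F] Ω) P
    change A.G.sum Ω (Finsupp.mapDomain (M.φ Ω) (Finsupp.mapDomain ((Xf f).act φ) z)) = _
    rw [h1]
    exact AV.sum_map A.G A.G ((Xf A.a).act φ)
      (fun x y => A.G.map_add Ω Ω (φ.restrictScalars F : Ω →ₐ[F] Ω) x y) _
  rw [e]
  obtain ⟨y, hy, hy1, hyb⟩ := h
  refine ⟨_, co_act φ hy, ?_, fun l => ?_⟩
  · change φ (y A.j₀) = 1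
    rw [hy1, map_one]
  · have e1 : (φ (y l) - algebraMap F Ω (A.o l)) / (L.p : Ω) =
        φ ((y l - algebraMap F Ω (A.o l)) / (L.p : Ω)) := by
      rw [map_div₀, map_sub, map_natCast, IsScalarTower.algebraMap_apply F K Ω,
        AlgEquiv.commutes]
    rw [e1]
    have h1 := (hyb l).pow q
    have h2 := hφ.frob _ (L.hv_int (hyb l))
    obtain ⟨r, hr⟩ := L.hv_of (x := φ ((y l - algebraMap F Ω (A.o l)) / (L.p : Ω))) (by
      rw [L.act]
      exact L.hv_int (hyb l))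
    have h3 : r = b l ^ q := (L.hv_sub hr h1).2 h2
    rwa [h3] at hr

end one

end GX
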