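import Pool.Agent.Lib.MP_f80667_ag.Sb.D

/-!
Taylor's formula in a ring with an ultrametric norm, the ring `Ω × Ω`.

* `Un ν`: `ν` is an ultrametric norm. `pn L τ`: the norm `max (|u|, |v|, |u - v| / τ)` of `Ω × Ω`.
* `Tl ν o t h`: the function `h` is linear up to elements of norm `≤ t ^ 2` on the vectors `x` with `|x - o| ≤ t`.
-/

open ZC BE PE CV IntermediateField MvPolynomial

namespace GX

/-- An ultrametric norm on a ring. -/
structure Un {S : Type} [CommRing S] (ν : S → ℝ) : Prop where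
  nonneg : ∀ a, 0 ≤ ν a
  zero : ν 0 = 0
  one : ν 1 ≤ 1
  add : ∀ a b, ν (a + b) ≤ max (ν a) (ν b)
  neg : ∀ a, ν (-a) = ν a
  mul : ∀ a b, ν (a * b) ≤ ν a * ν b

section un

variable {S : Type} [CommRing S] {ν : S → ℝ}

theorem Un.sub (h : Un ν) (a b : S) : ν (a - b) ≤ max (ν a) (ν b) := by
  rw [sub_eq_add_neg]
  exact (h.add a (-b)).trans (by rw [h.neg])

theorem Un.sum (h : Un ν) {α : Type} (s : Finset α) {f : α → S} {r : ℝ} (hr : 0 ≤ r)
    (hf : ∀ i ∈ s, ν (f i) ≤ r) : ν (∑ i ∈ s, f i) ≤ r := by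
  classical
  induction s using Finset.induction_on with
  | empty =>
    rw [Finset.sum_empty, h.zero]
    exact hr
  | insert a s ha ih =>
    rw [Finset.sum_insert ha]
    exact (h.add _ _).trans (max_le (hf a (Finset.mem_insert_self _ _))
      (ih fun i hi => hf i (Finset.mem_insert_of_mem hi)))

theorem Un.mul_le (h : Un ν) {a b : S} {r s : ℝ} (hr : 0 ≤ r) (ha : ν a ≤ r) (hb : ν b ≤ s) :
    ν (a * b) ≤ r * s :=
  (h.mul a b).trans (mul_le_mul ha hb (h.nonneg b) hr)

variable {F : Type} [Field F] [Algebra F S]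

/-- Induction for polynomials with integral coefficients. -/
theorem Un.ind (h : Un ν) {σ : Type} (P : MvPolynomial σ F → Prop)
    (hC : ∀ c, ν (algebraMap F S c) ≤ 1 → P (C c)) (hX : ∀ i, P (X i))
    (hadd : ∀ p q, P p → P q → P (p + q)) (hmul : ∀ p q, P p → P q → P (p * q))
    (G : MvPolynomial σ F) (hG : ∀ e, ν (algebraMap F S (G.coeff e)) ≤ 1) : P G := by
  classical
  have h1 : P 1 := by
    have h' := hC 1 (by rw [map_one]; exact h.one)
    rwa [map_one] at h'
  have h0 : P 0 := by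
    have h' := hC 0 (by rw [map_zero, h.zero]; exact zero_le_one)
    rwa [map_zero] at h'
  have hpow : ∀ (p : MvPolynomial σ F) (n : ℕ), P p → P (p ^ n) := by
    intro p n hp
    induction n with
    | zero => rwa [pow_zero]
    | succ n ih =>
      rw [pow_succ]
      exact hmul _ _ ih hp
  rw [G.as_sum]
  refine Finset.sum_induction _ P (fun p q => hadd p q) h0 fun e _ => ?_
  rw [monomial_eq]
  refine hmul _ _ (hC _ (hG e)) ?_
  rw [Finsupp.prod]
  exact Finset.prod_induction _ P (fun p q => hmul p q) h1 fun i _ => hpow _ _ (hX i)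

/-- Taylor's formula. -/
theorem Un.tay (h : Un ν) {σ : Type} [Fintype σ] {G : MvPolynomial σ F}
    (hG : ∀ e, ν (algebraMap F S (G.coeff e)) ≤ 1) {x y : σ → S} (hx : ∀ i, ν (x i) ≤ 1)
    (hy : ∀ i, ν (y i) ≤ 1) {t : ℝ} (ht : 0 ≤ t) (hxy : ∀ i, ν (x i - y i) ≤ t) :
    ν (aeval x G - aeval y G - ∑ i, aeval y (pderiv i G) * (x i - y i)) ≤ t * t ∧
      ∀ i, ν (aeval y (pderiv i G)) ≤ 1 := by
  classical
  have ht2 : 0 ≤ t * t := mul_nonneg ht ht
  have hm1 : ∀ a b : S, ν a ≤ 1 → ν b ≤ 1 → ν (a * b) ≤ 1 := fun a b ha hb => by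
    have := h.mul_le zero_le_one ha hb
    rwa [mul_one] at this
  have hm2 : ∀ (a b : S) (r : ℝ), 0 ≤ r → ν a ≤ 1 → ν b ≤ r → ν (a * b) ≤ r :=
    fun a b r hr ha hb => by
      have := h.mul_le zero_le_one ha hb
      rwa [one_mul] at this
  have h1 := h.ind (fun G : MvPolynomial σ F => (ν (aeval x G) ≤ 1 ∧
    ν (aeval y G) ≤ 1) ∧ ν (aeval x G - aeval y G) ≤ t ∧
      ν (aeval x G - aeval y G - ∑ i, aeval y (pderiv i G) * (x i - y i)) ≤ t * t ∧
        ∀ i, ν (aeval y (pderiv i G)) ≤ 1)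
    (fun c hc => ?_) (fun i => ?_) (fun p q hp hq => ?_) (fun p q hp hq => ?_) G hG
  · exact h1.2.2
  · have e : ∑ i, aeval y (pderiv i (C c : MvPolynomial σ F)) * (x i - y i) = 0 :=
      Finset.sum_eq_zero fun i _ => by rw [pderiv_C, map_zero, zero_mul]
    rw [e, aeval_C, aeval_C, sub_self, sub_zero, h.zero]
    refine ⟨⟨hc, hc⟩, ht, ht2, fun i => ?_⟩
    rw [pderiv_C, map_zero, h.zero]
    exact zero_le_one
  · have e : ∑ j, aeval y (pderiv j (X i : MvPolynomial σ F)) * (x j - y j) = x i - y i := by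
      rw [Finset.sum_eq_single i]
      · rw [pderiv_X_self, map_one, one_mul]
      · intro j _ hj
        rw [pderiv_X_of_ne hj.symm, map_zero, zero_mul]
      · exact fun hi => absurd (Finset.mem_univ i) hi
    rw [e, aeval_X, aeval_X, sub_self, h.zero]
    refine ⟨⟨hx i, hy i⟩, hxy i, ht2, fun j => ?_⟩
    rcases eq_or_ne j i with rfl | hj
    · rw [pderiv_X_self, map_one]
      exact h.one
    · rw [pderiv_X_of_ne hj.symm, map_zero, h.zero]
      exact zero_le_one
  · have e : ∑ i, aeval y (pderiv i (p + q)) * (x i - y i) =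
        ∑ i, aeval y (pderiv i p) * (x i - y i) + ∑ i, aeval y (pderiv i q) * (x i - y i) := by
      rw [← Finset.sum_add_distrib]
      exact Finset.sum_congr rfl fun i _ => by rw [map_add, map_add, add_mul]
    rw [e, map_add, map_add]
    refine ⟨⟨(h.add _ _).trans (max_le hp.1.1 hq.1.1), (h.add _ _).trans (max_le hp.1.2 hq.1.2)⟩,
      ?_, ?_, fun i => ?_⟩
    · rw [add_sub_add_comm]
      exact (h.add _ _).trans (max_le hp.2.1 hq.2.1)
    · rw [add_sub_add_comm, add_sub_add_comm]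
      exact (h.add _ _).trans (max_le hp.2.2.1 hq.2.2.1)
    · rw [map_add, map_add]
      exact (h.add _ _).trans (max_le (hp.2.2.2 i) (hq.2.2.2 i))
  · have e : ∑ i, aeval y (pderiv i (p * q)) * (x i - y i) =
        (∑ i, aeval y (pderiv i p) * (x i - y i)) * aeval y q +
          aeval y p * ∑ i, aeval y (pderiv i q) * (x i - y i) := by
      rw [Finset.sum_mul, Finset.mul_sum, ← Finset.sum_add_distrib]
      refine Finset.sum_congr rfl fun i _ => ?_
      rw [pderiv_mul, map_add, map_mul, map_mul]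
      ring
    rw [e, map_mul, map_mul]
    refine ⟨⟨hm1 _ _ hp.1.1 hq.1.1, hm1 _ _ hp.1.2 hq.1.2⟩, ?_, ?_, fun i => ?_⟩
    · have e : aeval x p * aeval x q - aeval y p * aeval y q =
          aeval x p * (aeval x q - aeval y q) + aeval y q * (aeval x p - aeval y p) := by ring
      rw [e]
      exact (h.add _ _).trans (max_le (hm2 _ _ _ ht hp.1.1 hq.2.1) (hm2 _ _ _ ht hq.1.2 hp.2.1))
    · generalize (∑ i, aeval y (pderiv i p) * (x i - y i)) = D at hp ⊢
      generalize (∑ i, aeval y (pderiv i q) * (x i - y i)) = D' at hq ⊢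
      have e : aeval x p * aeval x q - aeval y p * aeval y q -
          (D * aeval y q + aeval y p * D') =
          (aeval x p - aeval y p) * (aeval x q - aeval y q) +
            (aeval y p * (aeval x q - aeval y q - D') +
              aeval y q * (aeval x p - aeval y p - D)) := by ring
      rw [e]
      exact (h.add _ _).trans (max_le (h.mul_le ht hp.2.1 hq.2.1) ((h.add _ _).trans
        (max_le (hm2 _ _ _ ht2 hp.1.2 hq.2.2.1) (hm2 _ _ _ ht2 hq.1.2 hp.2.2.1))))
    · rw [pderiv_mul, map_add, map_mul, map_mul]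
      refine (h.add _ _).trans (max_le (hm1 _ _ (hp.2.2.2 i) hq.1.2) ?_)
      exact hm1 _ _ hp.1.2 (hq.2.2.2 i)

end un

section tl

variable {S : Type} [CommRing S] {n : ℕ}

/-- The function `h` is linear up to elements of norm `≤ t ^ 2`. -/
def Tl (ν : S → ℝ) {Ω : Type} [Field Ω] (nm : Ω → ℝ) (δ : Ω →+* S) (o : Fin n → Ω) (t : ℝ)
    (h : (Fin n → Ω) → S) : Prop :=
  ν (h o) ≤ 1 ∧ ∃ M : Fin n → S, (∀ s, ν (M s) ≤ 1) ∧
    ∀ x : Fin n → Ω, (∀ s, nm (x s - o s) ≤ t) →
      ν (h x - h o - ∑ s, M s * δ (x s - o s)) ≤ t * t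

variable {ν : S → ℝ} {Ω : Type} [Field Ω] {nm : Ω → ℝ} {δ : Ω →+* S} {o : Fin n → Ω} {t : ℝ}

theorem Tl.const (hν : Un ν) (ht : 0 ≤ t) {c : S} (hc : ν c ≤ 1) :
    Tl ν nm δ o t fun _ => c := by
  refine ⟨hc, fun _ => 0, fun _ => ?_, fun x _ => ?_⟩
  · rw [hν.zero]
    exact zero_le_one
  · simp only [zero_mul, Finset.sum_const_zero, sub_self]
    rw [hν.zero]
    exact mul_nonneg ht ht

theorem Tl.sub (hν : Un ν) {h h' : (Fin n → Ω) → S} (H : Tl ν nm δ o t h)
    (H' : Tl ν nm δ o t h') : Tl ν nm δ o t fun x => h x - h' x := by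
  obtain ⟨h0, M, hM, hx⟩ := H
  obtain ⟨h0', M', hM', hx'⟩ := H'
  refine ⟨(hν.sub _ _).trans (max_le h0 h0'), fun s => M s - M' s,
    fun s => (hν.sub _ _).trans (max_le (hM s) (hM' s)), fun x hxo => ?_⟩
  have e : h x - h' x - (h o - h' o) - ∑ s, (M s - M' s) * δ (x s - o s) =
      (h x - h o - ∑ s, M s * δ (x s - o s)) - (h' x - h' o - ∑ s, M' s * δ (x s - o s)) := by
    simp only [sub_mul, Finset.sum_sub_distrib]
    ring
  rw [e]
  exact (hν.sub _ _).trans (max_le (hx x hxo) (hx' x hxo))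

theorem Tl.mul (hν : Un ν) (ht : 0 ≤ t) (ht1 : t ≤ 1) (hδ : ∀ a, ν (δ a) ≤ nm a)
    {h h' : (Fin n → Ω) → S} (H : Tl ν nm δ o t h)
    (H' : Tl ν nm δ o t h') : Tl ν nm δ o t fun x => h x * h' x := by
  obtain ⟨h0, M, hM, hx⟩ := H
  obtain ⟨h0', M', hM', hx'⟩ := H'
  have ht2 : 0 ≤ t * t := mul_nonneg ht ht
  have hm2 : ∀ (a b : S) (r : ℝ), 0 ≤ r → ν a ≤ 1 → ν b ≤ r → ν (a * b) ≤ r :=
    fun a b r hr ha hb => by
      have := hν.mul_le zero_le_one ha hb
      rwa [one_mul] at this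
  refine ⟨hm2 _ _ _ zero_le_one h0 h0', fun s => h o * M' s + h' o * M s,
    fun s => (hν.add _ _).trans (max_le (hm2 _ _ _ zero_le_one h0 (hM' s))
      (hm2 _ _ _ zero_le_one h0' (hM s))), fun x hxo => ?_⟩
  have hs : ν (∑ s, M s * δ (x s - o s)) ≤ t := hν.sum _ ht fun s _ =>
    hm2 _ _ _ ht (hM s) ((hδ _).trans (hxo s))
  have hs' : ν (∑ s, M' s * δ (x s - o s)) ≤ t := hν.sum _ ht fun s _ =>
    hm2 _ _ _ ht (hM' s) ((hδ _).trans (hxo s))
  have e0 : ∑ s, (h o * M' s + h' o * M s) * δ (x s - o s) =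
      h o * ∑ s, M' s * δ (x s - o s) + h' o * ∑ s, M s * δ (x s - o s) := by
    rw [Finset.mul_sum, Finset.mul_sum, ← Finset.sum_add_distrib]
    exact Finset.sum_congr rfl fun s _ => by ring
  rw [e0]
  have h1 := hx x hxo
  have h2 := hx' x hxo
  generalize (∑ s, M s * δ (x s - o s)) = D at hs h1 ⊢
  generalize (∑ s, M' s * δ (x s - o s)) = D' at hs' h2 ⊢
  have htt : t * t ≤ t := mul_le_of_le_one_left ht ht1
  have h3 : ν (h x - h o) ≤ t := by
    have e : h x - h o = (h x - h o - D) + D := by ring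
    rw [e]
    exact (hν.add _ _).trans (max_le (h1.trans htt) hs)
  have h3' : ν (h' x - h' o) ≤ t := by
    have e : h' x - h' o = (h' x - h' o - D') + D' := by ring
    rw [e]
    exact (hν.add _ _).trans (max_le (h2.trans htt) hs')
  have e : h x * h' x - h o * h' o - (h o * D' + h' o * D) =
      (h x - h o) * (h' x - h' o) + (h o * (h' x - h' o - D') + h' o * (h x - h o - D)) := by
    ring
  rw [e]
  exact (hν.add _ _).trans (max_le (hν.mul_le ht h3 h3') ((hν.add _ _).trans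
    (max_le (hm2 _ _ _ ht2 h0 h2) (hm2 _ _ _ ht2 h0' h1))))

/-- The coordinates. -/
theorem Tl.coord (hν : Un ν) (ht : 0 ≤ t) (j : Fin n) (hj : ν (δ (o j)) ≤ 1) :
    Tl ν nm δ o t fun x => δ (x j) := by
  classical
  refine ⟨hj, fun s => if s = j then 1 else 0, fun s => ?_, fun x _ => ?_⟩
  · dsimp only
    split_ifs
    · exact hν.one
    · rw [hν.zero]
      exact zero_le_one
  · simp only [ite_mul, one_mul, zero_mul]
    rw [Finset.sum_ite_eq' Finset.univ j, if_pos (Finset.mem_univ j), map_sub, sub_self, hν.zero]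
    exact mul_nonneg ht ht

end tl

section pn

variable {K Ω : Type} [Field K] [Field Ω] [Algebra K Ω] (L : Ld K Ω)

/-- The norm of `Ω × Ω`. -/
noncomputable def pn (τ : ℝ) (u : Ω × Ω) : ℝ :=
  max (max (L.nm u.1) (L.nm u.2)) (L.nm (u.1 - u.2) / τ)

variable {L}

theorem pn_un {τ : ℝ} (hτ : 0 < τ) : Un (pn L τ) where
  nonneg a := le_max_of_le_left (le_max_of_le_left (L.nonneg _))
  zero := by
    simp only [pn, Prod.fst_zero, Prod.snd_zero, sub_self, L.zero, zero_div, max_self]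
  one := by
    simp only [pn, Prod.fst_one, Prod.snd_one, sub_self, L.zero, zero_div, L.one, max_self]
    exact max_le le_rfl zero_le_one
  add a b := by
    simp only [pn, Prod.fst_add, Prod.snd_add]
    refine max_le (max_le ?_ ?_) ?_
    · exact (L.add _ _).trans (max_le_max (le_max_of_le_left (le_max_left _ _))
        (le_max_of_le_left (le_max_left _ _)))
    · exact (L.add _ _).trans (max_le_max (le_max_of_le_left (le_max_right _ _))
        (le_max_of_le_left (le_max_right _ _)))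
    · rw [div_le_iff₀ hτ, add_sub_add_comm]
      refine (L.add _ _).trans (max_le ?_ ?_)
      · refine (div_le_iff₀ hτ).1 ?_
        exact le_max_of_le_left (le_max_right _ _)
      · refine (div_le_iff₀ hτ).1 ?_
        exact le_max_of_le_right (le_max_right _ _)
  neg a := by
    simp only [pn, Prod.fst_neg, Prod.snd_neg]
    have e : -a.1 - -a.2 = -(a.1 - a.2) := by ring
    rw [e, L.neg, L.neg, L.neg]
  mul a b := by
    have ha0 : 0 ≤ max (max (L.nm a.1) (L.nm a.2)) (L.nm (a.1 - a.2) / τ) :=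
      le_max_of_le_left (le_max_of_le_left (L.nonneg _))
    have hb0 : 0 ≤ max (max (L.nm b.1) (L.nm b.2)) (L.nm (b.1 - b.2) / τ) :=
      le_max_of_le_left (le_max_of_le_left (L.nonneg _))
    simp only [pn, Prod.fst_mul, Prod.snd_mul]
    refine max_le (max_le ?_ ?_) ?_
    · rw [L.mul]
      exact mul_le_mul (le_max_of_le_left (le_max_left _ _)) (le_max_of_le_left (le_max_left _ _))
        (L.nonneg _) ha0
    · rw [L.mul]
      exact mul_le_mul (le_max_of_le_left (le_max_right _ _))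
        (le_max_of_le_left (le_max_right _ _)) (L.nonneg _) ha0
    · rw [div_le_iff₀ hτ]
      have e : a.1 * b.1 - a.2 * b.2 = a.1 * (b.1 - b.2) + (a.1 - a.2) * b.2 := by ring
      rw [e]
      refine (L.add _ _).trans (max_le ?_ ?_)
      · rw [L.mul, mul_assoc]
        refine mul_le_mul (le_max_of_le_left (le_max_left _ _)) ?_ (L.nonneg _) ha0
        exact (div_le_iff₀ hτ).1 (le_max_right _ _)
      · rw [L.mul, mul_assoc, mul_comm _ τ, ← mul_assoc]
        refine mul_le_mul ?_ (le_max_of_le_left (le_max_right _ _)) (L.nonneg _)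
          (mul_nonneg ha0 hτ.le)
        exact (div_le_iff₀ hτ).1 (le_max_right _ _)

/-- The difference of the components. -/
theorem pn_dif {τ : ℝ} (hτ : 0 < τ) {u : Ω × Ω} {r : ℝ} (h : pn L τ u ≤ r) :
    L.nm (u.1 - u.2) ≤ r * τ :=
  (div_le_iff₀ hτ).1 ((le_max_right _ _).trans h)

theorem pn_diag {τ : ℝ} (hτ : 0 < τ) (a : Ω) : pn L τ (a, a) = L.nm a := by
  simp only [pn, sub_self, L.zero, zero_div, max_self]
  exact max_eq_left (L.nonneg _)

end pn

end GX
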